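import Mathlib

set_option autoImplicit false

open Set

namespace Pool.Agent.Helper43.Quad

/-- value of the polynomial with coefficients `c` and degree `< k` -/
noncomputable def pol (k : ℕ) (c : ℕ → ℝ) (s : ℝ) : ℝ := ∑ i ∈ Finset.range k, c i * s ^ i

/-- its derivative -/
noncomputable def polD (k : ℕ) (c : ℕ → ℝ) (s : ℝ) : ℝ :=
  ∑ i ∈ Finset.range k, c i * ((i : ℝ) * s ^ (i - 1))

lemma hasDerivAt_pol (k : ℕ) (c : ℕ → ℝ) (s : ℝ) : HasDerivAt (pol k c) (polD k c s) s := by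
  unfold pol polD
  exact HasDerivAt.fun_sum (fun i _ => (hasDerivAt_pow i s).const_mul (c i))

lemma taylor_pol : ∀ (k : ℕ) (g : ℕ → ℝ → ℝ) (M : ℝ), 0 ≤ M →
    (∀ j < k, ∀ s ∈ Icc (0 : ℝ) 1, HasDerivWithinAt (g j) (g (j + 1) s) (Icc 0 1) s) →
    (∀ s ∈ Icc (0 : ℝ) 1, |g k s| ≤ M) →
    ∃ c : ℕ → ℝ, (∀ s ∈ Icc (0 : ℝ) 1, |g 0 s - pol k c s| ≤ M) ∧
      (1 ≤ k → ∀ s ∈ Icc (0 : ℝ) 1, |g 1 s - polD k c s| ≤ M) := by
  intro k
  induction k with
  | zero =>
    intro g M hM _ hb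
    refine ⟨fun _ => 0, fun s hs => ?_, fun h => absurd h (by norm_num)⟩
    simpa [pol] using hb s hs
  | succ k ih =>
    intro g M hM hd hb
    obtain ⟨c, hc, _⟩ := ih (fun j => g (j + 1)) M hM (fun j hj s hs => hd (j + 1) (by omega) s hs)
      (fun s hs => hb s hs)
    let c' : ℕ → ℝ := fun i => if i = 0 then g 0 0 else c (i - 1) / i
    have hD : ∀ s, polD (k + 1) c' s = pol k c s := by
      intro s
      unfold polD pol
      rw [Finset.sum_range_succ']
      simp only [Nat.cast_zero, zero_mul, mul_zero, add_zero]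
      refine Finset.sum_congr rfl (fun i _ => ?_)
      simp only [c', Nat.succ_ne_zero, if_false, Nat.add_sub_cancel]
      have : ((i + 1 : ℕ) : ℝ) ≠ 0 := by positivity
      field_simp
    have h0 : pol (k + 1) c' 0 = g 0 0 := by
      unfold pol
      rw [Finset.sum_range_succ']
      simp [c']
    refine ⟨c', ?_, fun _ s hs => by rw [hD]; exact hc s hs⟩
    intro s hs
    have hder : ∀ x ∈ Icc (0 : ℝ) 1, HasDerivWithinAt (fun x => g 0 x - pol (k + 1) c' x)
        (g 1 x - polD (k + 1) c' x) (Icc 0 1) x := fun x hx =>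
      (hd 0 (by omega) x hx).sub (hasDerivAt_pol (k + 1) c' x).hasDerivWithinAt
    have hbd : ∀ x ∈ Icc (0 : ℝ) 1, ‖g 1 x - polD (k + 1) c' x‖ ≤ M := by
      intro x hx
      rw [hD]; exact hc x hx
    have hmv := (convex_Icc (0 : ℝ) 1).norm_image_sub_le_of_norm_hasDerivWithin_le hder hbd
      (left_mem_Icc.mpr zero_le_one) hs
    simp only [h0, sub_self, sub_zero, Real.norm_eq_abs] at hmv
    calc |g 0 s - pol (k + 1) c' s| ≤ M * |s| := hmv
      _ ≤ M * 1 := mul_le_mul_of_nonneg_left (by rw [abs_of_nonneg hs.1]; exact hs.2) hM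
      _ = M := mul_one M

/-- Coefficients are controlled by the values at distinct nodes. -/
lemma coeff_bound (k : ℕ) (t : Fin k → ℝ) (ht : Function.Injective t) :
    ∃ C : ℝ, 0 ≤ C ∧ ∀ (c : ℕ → ℝ) (η : ℝ), 0 ≤ η → (∀ i, |pol k c (t i)| ≤ η) →
      ∀ j < k, |c j| ≤ C * η := by
  let A : (Fin k → ℝ) →ₗ[ℝ] (Fin k → ℝ) := (Matrix.vandermonde t).mulVecLin
  have hA : LinearMap.ker A = ⊥ := by
    rw [LinearMap.ker_eq_bot]
    have hdet : (Matrix.vandermonde t).det ≠ 0 := Matrix.det_vandermonde_ne_zero_iff.mpr ht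
    exact Matrix.mulVec_injective_of_isUnit
      ((Matrix.isUnit_iff_isUnit_det _).mpr (isUnit_iff_ne_zero.mpr hdet))
  obtain ⟨K, _, hK⟩ := A.exists_antilipschitzWith hA
  refine ⟨K, K.2, fun c η hη hc j hj => ?_⟩
  have h1 := hK.le_mul_dist (fun j : Fin k => c j) 0
  have h2 : ‖A (fun j : Fin k => c j)‖ ≤ η := by
    rw [pi_norm_le_iff_of_nonneg hη]
    intro i
    have h3 : A (fun j : Fin k => c j) i = pol k c (t i) := by
      simp only [A, Matrix.mulVecLin_apply, Matrix.mulVec, dotProduct, Matrix.vandermonde_apply, pol]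
      rw [← Fin.sum_univ_eq_sum_range (fun i_1 => c i_1 * t i ^ i_1) k]
      exact Finset.sum_congr rfl (fun x _ => mul_comm _ _)
    rw [h3]; exact hc i
  rw [map_zero, dist_zero_right, dist_zero_right] at h1
  have h4 : ‖c j‖ ≤ ‖(fun j : Fin k => c j)‖ := norm_le_pi_norm (fun j : Fin k => c j) ⟨j, hj⟩
  calc |c j| ≤ ‖(fun j : Fin k => c j)‖ := h4
    _ ≤ K * ‖A (fun j : Fin k => c j)‖ := h1
    _ ≤ K * η := mul_le_mul_of_nonneg_left h2 K.2

/-- One-dimensional interpolation lemma. -/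
lemma one_dim (k : ℕ) (hk : 1 ≤ k) (t : Fin k → ℝ) (ht : Function.Injective t)
    (ht1 : ∀ i, t i ∈ Icc (0 : ℝ) 1) :
    ∃ C : ℝ, 0 ≤ C ∧ ∀ (g : ℕ → ℝ → ℝ) (M η : ℝ), 0 ≤ M → 0 ≤ η →
      (∀ j < k, ∀ s ∈ Icc (0 : ℝ) 1, HasDerivWithinAt (g j) (g (j + 1) s) (Icc 0 1) s) →
      (∀ s ∈ Icc (0 : ℝ) 1, |g k s| ≤ M) → (∀ i, |g 0 (t i)| ≤ η) →
      ∀ s ∈ Icc (0 : ℝ) 1, |g 0 s| ≤ C * (η + M) ∧ |g 1 s| ≤ C * (η + M) := by
  obtain ⟨C1, hC1, hC1'⟩ := coeff_bound k t ht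
  refine ⟨(k : ℝ) * (k : ℝ) * C1 + (k : ℝ) * C1 + 1, by positivity, ?_⟩
  intro g M η hM hη hd hb hn s hs
  obtain ⟨c, hc0, hc1⟩ := taylor_pol k g M hM hd hb
  have hcoef : ∀ j < k, |c j| ≤ C1 * (η + M) := by
    apply hC1' c (η + M) (by positivity)
    intro i
    have h1 := hc0 (t i) (ht1 i)
    have h2 := hn i
    calc |pol k c (t i)| = |g 0 (t i) - (g 0 (t i) - pol k c (t i))| := by ring_nf
      _ ≤ |g 0 (t i)| + |g 0 (t i) - pol k c (t i)| := abs_sub _ _
      _ ≤ η + M := add_le_add h2 h1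
  have hpow : ∀ n : ℕ, |s ^ n| ≤ 1 := by
    intro n
    rw [abs_pow, abs_of_nonneg hs.1]
    exact pow_le_one₀ hs.1 hs.2
  have hηM : 0 ≤ η + M := by positivity
  have hp : |pol k c s| ≤ (k : ℝ) * (C1 * (η + M)) := by
    unfold pol
    refine (Finset.abs_sum_le_sum_abs _ _).trans ?_
    calc ∑ i ∈ Finset.range k, |c i * s ^ i| ≤ ∑ i ∈ Finset.range k, C1 * (η + M) := by
          refine Finset.sum_le_sum (fun i hi => ?_)
          rw [abs_mul]
          calc |c i| * |s ^ i| ≤ (C1 * (η + M)) * 1 :=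
                mul_le_mul (hcoef i (Finset.mem_range.mp hi)) (hpow i) (abs_nonneg _)
                  (mul_nonneg hC1 hηM)
            _ = _ := mul_one _
      _ = (k : ℝ) * (C1 * (η + M)) := by simp
  have hpD : |polD k c s| ≤ (k : ℝ) * ((k : ℝ) * (C1 * (η + M))) := by
    unfold polD
    refine (Finset.abs_sum_le_sum_abs _ _).trans ?_
    calc ∑ i ∈ Finset.range k, |c i * ((i : ℝ) * s ^ (i - 1))|
        ≤ ∑ i ∈ Finset.range k, (k : ℝ) * (C1 * (η + M)) := by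
          refine Finset.sum_le_sum (fun i hi => ?_)
          rw [abs_mul, abs_mul]
          have hik : |(i : ℝ)| ≤ k := by
            rw [abs_of_nonneg (Nat.cast_nonneg i)]
            exact_mod_cast (Finset.mem_range.mp hi).le
          calc |c i| * (|(i : ℝ)| * |s ^ (i - 1)|) ≤ (C1 * (η + M)) * ((k : ℝ) * 1) :=
                mul_le_mul (hcoef i (Finset.mem_range.mp hi))
                  (mul_le_mul hik (hpow _) (abs_nonneg _) (Nat.cast_nonneg k))
                  (mul_nonneg (abs_nonneg _) (abs_nonneg _)) (mul_nonneg hC1 hηM)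
            _ = _ := by ring
      _ = (k : ℝ) * ((k : ℝ) * (C1 * (η + M))) := by simp
  have h0 := hc0 s hs
  have h1 := hc1 hk s hs
  have hk0 : (0 : ℝ) ≤ k := Nat.cast_nonneg k
  constructor
  · have : |g 0 s| ≤ |pol k c s| + |g 0 s - pol k c s| := by
      calc |g 0 s| = |pol k c s + (g 0 s - pol k c s)| := by ring_nf
        _ ≤ _ := abs_add_le _ _
    have h5 : 0 ≤ (k : ℝ) * ((k : ℝ) * (C1 * (η + M))) := by positivity
    nlinarith
  · have : |g 1 s| ≤ |polD k c s| + |g 1 s - polD k c s| := by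
      calc |g 1 s| = |polD k c s + (g 1 s - polD k c s)| := by ring_nf
        _ ≤ _ := abs_add_le _ _
    have h5 : 0 ≤ (k : ℝ) * (C1 * (η + M)) := by positivity
    nlinarith

end Pool.Agent.Helper43.Quad
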