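import Mathlib
import Pool.Agent.Helper43.Quad.OneDim

set_option autoImplicit false

open Set

namespace Pool.Agent.Helper43.Quad

/-- coordinate direction -/
noncomputable def ev {d : ℕ} (i : Fin d) : Fin d → ℝ := Pi.single i 1

/-- all the partial derivatives of order `n` are bounded by `B` at `x` -/
def PB {d : ℕ} (n : ℕ) (f : (Fin d → ℝ) → ℝ) (x : Fin d → ℝ) (B : ℝ) : Prop :=
  ∀ r : Fin n → Fin d, |iteratedFDeriv ℝ n f x (fun m => ev (r m))| ≤ B

lemma multi_bound {d n : ℕ} (T : ContinuousMultilinearMap ℝ (fun _ : Fin n => (Fin d → ℝ)) ℝ)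
    (B : ℝ) (hB : ∀ r : Fin n → Fin d, |T (fun m => ev (r m))| ≤ B)
    (v : Fin n → (Fin d → ℝ)) : |T v| ≤ B * ∏ m, ∑ i, |v m i| := by
  have hv : v = fun m => ∑ i, v m i • (ev i : Fin d → ℝ) := by
    funext m
    exact (pi_eq_sum_univ' (v m))
  rw [hv, T.map_sum]
  refine (Finset.abs_sum_le_sum_abs _ _).trans ?_
  have h1 : ∀ r : Fin n → Fin d, |T (fun m => v m (r m) • (ev (r m) : Fin d → ℝ))| ≤
      B * ∏ m, |v m (r m)| := by
    intro r
    rw [T.map_smul_univ, smul_eq_mul, abs_mul, Finset.abs_prod, mul_comm]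
    exact mul_le_mul_of_nonneg_right (hB r) (Finset.prod_nonneg (fun _ _ => abs_nonneg _))
  refine (Finset.sum_le_sum (fun r _ => h1 r)).trans ?_
  rw [← Finset.mul_sum]
  have h2 : ∑ r : Fin n → Fin d, ∏ m, |v m (r m)| = ∏ m, ∑ i, |v m i| := by
    rw [Finset.prod_univ_sum]
    rw [Fintype.piFinset_univ]
  rw [h2]
  have h3 : ∀ m, (∑ i, v m i • (ev i : Fin d → ℝ)) = v m := fun m => (pi_eq_sum_univ' (v m)).symm
  simp only [h3]
  exact le_refl _

lemma PB.bound {d n : ℕ} {f : (Fin d → ℝ) → ℝ} {x : Fin d → ℝ} {B : ℝ} (h : PB n f x B)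
    (v : Fin n → (Fin d → ℝ)) : |iteratedFDeriv ℝ n f x v| ≤ B * ∏ m, ∑ i, |v m i| :=
  multi_bound _ B h v

lemma sum_abs_ev {d : ℕ} (i : Fin d) : ∑ j, |(ev i : Fin d → ℝ) j| = 1 := by
  unfold ev
  rw [Finset.sum_eq_single i]
  · simp
  · intro j _ hj; simp [Pi.single_eq_of_ne hj]
  · intro h; exact absurd (Finset.mem_univ i) h

lemma sum_abs_le {d : ℕ} (w : Fin d → ℝ) : ∑ j, |w j| ≤ d * ‖w‖ := by
  calc ∑ j, |w j| ≤ ∑ _j : Fin d, ‖w‖ := Finset.sum_le_sum (fun j _ => norm_le_pi_norm w j)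
    _ = d * ‖w‖ := by simp

/-- consing the same vector `m` times -/
noncomputable def vv {V : Type*} {j : ℕ} (v : Fin j → V) (w : V) : (m : ℕ) → (Fin (j + m) → V)
  | 0 => v
  | (m + 1) => Fin.cons w (vv v w m)

lemma prod_vv {d j : ℕ} (v : Fin j → (Fin d → ℝ)) (w : Fin d → ℝ) : ∀ m : ℕ,
    ∏ l, ∑ i, |(vv v w m) l i| = (∏ l, ∑ i, |v l i|) * (∑ i, |w i|) ^ m := by
  intro m
  induction m with
  | zero => simp [vv]
  | succ m ih =>
    show ∏ l : Fin (j + m + 1), ∑ i, |(vv v w (m + 1)) l i| = _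
    rw [Fin.prod_univ_succ]
    simp only [vv, Fin.cons_zero, Fin.cons_succ]
    rw [ih, pow_succ]; ring

lemma hasDerivAt_line {V : Type*} [NormedAddCommGroup V] [NormedSpace ℝ V] {k n : ℕ}
    {f : V → ℝ} {U : Set V} (hU : IsOpen U) (hf : ContDiffOn ℝ k f U) (hn : n < k)
    (v : Fin n → V) (y w : V) (s : ℝ) (hs : y + s • w ∈ U) :
    HasDerivAt (fun s : ℝ => iteratedFDeriv ℝ n f (y + s • w) v)
      (iteratedFDeriv ℝ (n + 1) f (y + s • w) (Fin.cons w v : Fin (n + 1) → V)) s := by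
  have hfa : ContDiffAt ℝ k f (y + s • w) := hf.contDiffAt (hU.mem_nhds hs)
  have hd : DifferentiableAt ℝ (iteratedFDeriv ℝ n f) (y + s • w) :=
    hfa.differentiableAt_iteratedFDeriv (by exact_mod_cast hn)
  have hd' : DifferentiableAt ℝ (fun z => iteratedFDeriv ℝ n f z v) (y + s • w) :=
    hd.continuousMultilinear_apply_const _
  have hline : HasDerivAt (fun s : ℝ => y + s • w) w s := by
    simpa using ((hasDerivAt_id s).smul_const w).const_add y
  have h1 := hd'.hasFDerivAt.comp_hasDerivAt s hline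
  have h2 : iteratedFDeriv ℝ (n + 1) f (y + s • w) (Fin.cons w v : Fin (n + 1) → V) =
      fderiv ℝ (fun z => iteratedFDeriv ℝ n f z v) (y + s • w) w := by
    rw [hd.iteratedFDeriv_succ_apply_left']
    simp only [Fin.tail_cons, Fin.cons_zero]
  rw [h2]
  exact h1

/-- The chain of derivatives along a segment. -/
lemma chain_line {d k j : ℕ} {f : (Fin d → ℝ) → ℝ} {U : Set (Fin d → ℝ)} (hU : IsOpen U)
    (hf : ContDiffOn ℝ k f U) (v : Fin j → (Fin d → ℝ)) (y w : Fin d → ℝ)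
    (hseg : ∀ s ∈ Icc (0 : ℝ) 1, y + s • w ∈ U) :
    ∀ m, j + m < k → ∀ s ∈ Icc (0 : ℝ) 1,
      HasDerivWithinAt (fun s : ℝ => iteratedFDeriv ℝ (j + m) f (y + s • w) (vv v w m))
        (iteratedFDeriv ℝ (j + (m + 1)) f (y + s • w) (vv v w (m + 1))) (Icc 0 1) s := by
  intro m hm s hs
  exact (hasDerivAt_line hU hf hm (vv v w m) y w s (hseg s hs)).hasDerivWithinAt

end Pool.Agent.Helper43.Quad
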