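import Mathlib
import Pool.Agent.Helper43.Quad.Lines

set_option autoImplicit false

open Set

namespace Pool.Agent.Helper43.Quad

lemma seg (p : ℕ) (hp : 1 ≤ p) (t : Fin p → ℝ) (ht : Function.Injective t)
    (ht1 : ∀ i, t i ∈ Icc (0 : ℝ) 1) :
    ∃ C : ℝ, 0 ≤ C ∧ ∀ (d j : ℕ) (f : (Fin d → ℝ) → ℝ) (U : Set (Fin d → ℝ)) (B η : ℝ),
      IsOpen U → ContDiffOn ℝ (j + p : ℕ) f U → 0 ≤ B → 0 ≤ η →
      ∀ (v : Fin j → (Fin d → ℝ)) (y w : Fin d → ℝ), (∀ s ∈ Icc (0 : ℝ) 1, y + s • w ∈ U) →
      (∀ s ∈ Icc (0 : ℝ) 1, PB (j + p) f (y + s • w) B) →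
      (∀ i, |iteratedFDeriv ℝ j f (y + t i • w) v| ≤ η) →
      ∀ s ∈ Icc (0 : ℝ) 1,
        |iteratedFDeriv ℝ j f (y + s • w) v| ≤
          C * (η + B * ((∏ l, ∑ i, |v l i|) * (∑ i, |w i|) ^ p)) ∧
        |iteratedFDeriv ℝ (j + 1) f (y + s • w) (Fin.cons w v : Fin (j + 1) → (Fin d → ℝ))| ≤
          C * (η + B * ((∏ l, ∑ i, |v l i|) * (∑ i, |w i|) ^ p)) := by
  obtain ⟨C, hC, hC'⟩ := one_dim p hp t ht ht1
  refine ⟨C, hC, ?_⟩
  intro d j f U B η hU hf hB hη v y w hseg hPB hnodes s hs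
  have hM : 0 ≤ B * ((∏ l, ∑ i, |v l i|) * (∑ i, |w i|) ^ p) := by
    refine mul_nonneg hB (mul_nonneg (Finset.prod_nonneg fun l _ => Finset.sum_nonneg
      fun i _ => abs_nonneg _) (pow_nonneg (Finset.sum_nonneg fun i _ => abs_nonneg _) _))
  exact hC' (fun m s => iteratedFDeriv ℝ (j + m) f (y + s • w) (vv v w m)) _ η hM hη
    (fun m hm => chain_line hU hf v y w hseg m (by omega))
    (fun s hs => by
      have := (hPB s hs).bound (vv v w p)
      rw [prod_vv] at this
      exact this)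
    hnodes s hs

/-- Functions vanishing at the nodes of a block are small on the block. -/
lemma block_aux (d k : ℕ) (hk : 1 ≤ k) (S : Finset (Fin d)) :
    ∃ C : ℝ, 0 ≤ C ∧ ∀ (f : (Fin d → ℝ) → ℝ) (U : Set (Fin d → ℝ)) (δ : ℝ) (c : Fin d → ℝ),
      IsOpen U → ContDiffOn ℝ k f U → 0 < δ →
      (∀ y : Fin d → ℝ, (∀ i, c i ≤ y i ∧ y i ≤ c i + k * δ) → y ∈ U) →
      (∀ y : Fin d → ℝ, (∀ i, c i ≤ y i ∧ y i ≤ c i + k * δ) → PB k f y 1) →
      (∀ y : Fin d → ℝ, (∀ i, ∃ m : ℕ, m < k ∧ y i = c i + m * δ) → f y = 0) →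
      ∀ y : Fin d → ℝ, (∀ i, c i ≤ y i ∧ y i ≤ c i + k * δ) →
        (∀ i ∉ S, ∃ m : ℕ, m < k ∧ y i = c i + m * δ) → |f y| ≤ C * δ ^ k := by
  classical
  induction S using Finset.induction_on with
  | empty =>
    refine ⟨0, le_refl _, ?_⟩
    intro f U δ c hU hf hδ hsub hPB h0 y hy hnode
    rw [h0 y (fun i => hnode i (Finset.notMem_empty i))]
    simp
  | insert a S ha ih =>
    obtain ⟨C1, hC1, hC1'⟩ := ih
    have hk0 : (0 : ℝ) < k := by exact_mod_cast hk
    let t : Fin k → ℝ := fun i => (i : ℝ) / k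
    have ht : Function.Injective t := by
      intro i j hij
      simp only [t] at hij
      rw [div_left_inj' hk0.ne'] at hij
      exact Fin.ext (by exact_mod_cast hij)
    have ht1 : ∀ i, t i ∈ Icc (0 : ℝ) 1 := by
      intro i
      refine ⟨by positivity, ?_⟩
      rw [div_le_one hk0]
      exact_mod_cast i.2.le
    obtain ⟨C2, hC2, hC2'⟩ := seg k hk t ht ht1
    refine ⟨C2 * (C1 + (k : ℝ) ^ k), by positivity, ?_⟩
    intro f U δ c hU hf hδ hsub hPB h0 y hy hnode
    let y0 : Fin d → ℝ := Function.update y a (c a)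
    let w : Fin d → ℝ := ((k : ℝ) * δ) • ev a
    have hkδ : 0 < (k : ℝ) * δ := by positivity
    have hline : ∀ s : ℝ, ∀ i, (y0 + s • w) i = if i = a then c a + s * (k * δ) else y i := by
      intro s i
      by_cases hi : i = a
      · subst hi
        simp [y0, w, ev]
      · simp [y0, w, ev, hi, Function.update_of_ne hi, Pi.single_eq_of_ne hi]
    have hmem : ∀ s ∈ Icc (0 : ℝ) 1, ∀ i, c i ≤ (y0 + s • w) i ∧ (y0 + s • w) i ≤ c i + k * δ := by
      intro s hs i
      rw [hline]
      by_cases hi : i = a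
      · subst hi
        simp only [if_true]
        constructor
        · have := mul_nonneg hs.1 hkδ.le; linarith
        · have := mul_le_mul_of_nonneg_right hs.2 hkδ.le; linarith
      · simp only [hi, if_false]; exact hy i
    have hs0 : (y a - c a) / (k * δ) ∈ Icc (0 : ℝ) 1 := by
      constructor
      · exact div_nonneg (by linarith [(hy a).1]) hkδ.le
      · rw [div_le_one hkδ]; linarith [(hy a).2]
    have hy' : y0 + ((y a - c a) / (k * δ)) • w = y := by
      funext i
      rw [hline]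
      by_cases hi : i = a
      · subst hi
        simp only [if_true]
        field_simp
        ring
      · simp only [hi, if_false]
    have hnodes : ∀ i : Fin k, |iteratedFDeriv ℝ 0 f (y0 + t i • w) (fun x => x.elim0)| ≤
        C1 * δ ^ k := by
      intro i
      rw [iteratedFDeriv_zero_apply]
      refine hC1' f U δ c hU hf hδ hsub hPB h0 _ (hmem (t i) (ht1 i)) ?_
      intro i' hi'
      rw [hline]
      by_cases hia : i' = a
      · subst hia
        simp only [if_true]
        refine ⟨i, i.2, ?_⟩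
        simp only [t]; field_simp
      · simp only [hia, if_false]
        exact hnode i' (by simp [hia, hi'])
    have hmain := (hC2' d 0 f U 1 (C1 * δ ^ k) hU (by simpa using hf) zero_le_one (by positivity)
      (fun x => x.elim0) y0 w (fun s hs => hsub _ (hmem s hs))
      (fun s hs => by rw [zero_add]; exact hPB _ (hmem s hs)) hnodes _ hs0).1
    rw [iteratedFDeriv_zero_apply, hy'] at hmain
    have hw : ∑ i, |w i| = k * δ := by
      have : ∀ i, |w i| = (k * δ) * |(ev a : Fin d → ℝ) i| := by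
        intro i
        simp only [w, Pi.smul_apply, smul_eq_mul, abs_mul]
        rw [abs_of_pos hk0, abs_of_pos hδ]
      rw [Finset.sum_congr rfl (fun i _ => this i), ← Finset.mul_sum, sum_abs_ev, mul_one]
    rw [hw] at hmain
    simp only [Finset.univ_eq_empty, Finset.prod_empty, one_mul] at hmain
    calc |f y| ≤ C2 * (C1 * δ ^ k + (k * δ) ^ k) := hmain
      _ = C2 * (C1 + (k : ℝ) ^ k) * δ ^ k := by rw [mul_pow]; ring

lemma block (d k : ℕ) (hk : 1 ≤ k) :
    ∃ C : ℝ, 0 ≤ C ∧ ∀ (f : (Fin d → ℝ) → ℝ) (U : Set (Fin d → ℝ)) (δ : ℝ) (c : Fin d → ℝ),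
      IsOpen U → ContDiffOn ℝ k f U → 0 < δ →
      (∀ y : Fin d → ℝ, (∀ i, c i ≤ y i ∧ y i ≤ c i + k * δ) → y ∈ U) →
      (∀ y : Fin d → ℝ, (∀ i, c i ≤ y i ∧ y i ≤ c i + k * δ) → PB k f y 1) →
      (∀ y : Fin d → ℝ, (∀ i, ∃ m : ℕ, m < k ∧ y i = c i + m * δ) → f y = 0) →
      ∀ y : Fin d → ℝ, (∀ i, c i ≤ y i ∧ y i ≤ c i + k * δ) → |f y| ≤ C * δ ^ k := by
  obtain ⟨C, hC, hC'⟩ := block_aux d k hk Finset.univ
  exact ⟨C, hC, fun f U δ c hU hf hδ hsub hPB h0 y hy =>
    hC' f U δ c hU hf hδ hsub hPB h0 y hy (fun i hi => absurd (Finset.mem_univ i) hi)⟩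

/-- Functions on the unit cube vanishing on a grid: bounds for all the derivatives. -/
lemma cube_deriv (d k : ℕ) (hk : 1 ≤ k) : ∀ j : ℕ, j < k →
    ∃ C : ℝ, 0 ≤ C ∧ ∀ (f : (Fin d → ℝ) → ℝ) (U : Set (Fin d → ℝ)) (J : ℕ),
      IsOpen U → ContDiffOn ℝ k f U → Icc (0 : Fin d → ℝ) 1 ⊆ U → k ≤ J →
      (∀ y ∈ Icc (0 : Fin d → ℝ) 1, PB k f y 1) →
      (∀ y : Fin d → ℝ, (∀ i, ∃ m : ℕ, m ≤ J ∧ y i = (m : ℝ) / J) → f y = 0) →
      ∀ y ∈ Icc (0 : Fin d → ℝ) 1, PB j f y (C * (1 / (J : ℝ)) ^ (k - j)) := by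
  classical
  intro j
  induction j with
  | zero =>
    intro _
    obtain ⟨C, hC, hC'⟩ := block d k hk
    refine ⟨C, hC, ?_⟩
    intro f U J hU hf hsub hkJ hPB h0 y hy r
    rw [iteratedFDeriv_zero_apply, Nat.sub_zero]
    have hJ : (0 : ℝ) < J := by exact_mod_cast (lt_of_lt_of_le hk hkJ)
    -- corner
    let q : Fin d → ℕ := fun i => min ⌊y i * J⌋₊ (J - k)
    let c : Fin d → ℝ := fun i => (q i : ℝ) / J
    have hq1 : ∀ i, (q i : ℝ) ≤ y i * J := by
      intro i
      have h1 : (q i : ℝ) ≤ (⌊y i * J⌋₊ : ℝ) := by exact_mod_cast min_le_left _ _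
      exact h1.trans (Nat.floor_le (mul_nonneg (hy.1 i) hJ.le))
    have hq2 : ∀ i, (q i : ℝ) ≤ (J : ℝ) - k := by
      intro i
      have h1 : q i ≤ J - k := min_le_right _ _
      have h2 : (q i : ℝ) ≤ ((J - k : ℕ) : ℝ) := by exact_mod_cast h1
      rwa [Nat.cast_sub hkJ] at h2
    have hq3 : ∀ i, y i * J ≤ q i + k := by
      intro i
      rcases min_cases ⌊y i * J⌋₊ (J - k) with h | h
      · have h1 : (q i : ℝ) = (⌊y i * J⌋₊ : ℝ) := by exact_mod_cast h.1
        have h2 := (Nat.lt_floor_add_one (y i * J)).le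
        have h3 : (1 : ℝ) ≤ k := by exact_mod_cast hk
        rw [h1]; linarith
      · have h1 : (q i : ℝ) = (J : ℝ) - k := by
          have : q i = J - k := h.1
          rw [this, Nat.cast_sub hkJ]
        have h2 : y i * J ≤ 1 * J := mul_le_mul_of_nonneg_right (hy.2 i) hJ.le
        rw [h1]; linarith
    have hblock : ∀ z : Fin d → ℝ, (∀ i, c i ≤ z i ∧ z i ≤ c i + k * (1 / (J : ℝ))) →
        z ∈ Icc (0 : Fin d → ℝ) 1 := by
      intro z hz
      constructor
      · intro i
        have h1 : 0 ≤ c i := by positivity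
        exact h1.trans (hz i).1
      · intro i
        refine (hz i).2.trans ?_
        simp only [c, Pi.one_apply]
        rw [mul_one_div, ← add_div, div_le_one hJ]
        linarith [hq2 i]
    refine hC' f U (1 / (J : ℝ)) c hU hf (by positivity) (fun z hz => hsub (hblock z hz))
      (fun z hz => hPB z (hblock z hz)) ?_ y ?_
    · intro z hz
      apply h0
      intro i
      obtain ⟨m, hm, hzm⟩ := hz i
      refine ⟨q i + m, ?_, ?_⟩
      · have h1 : q i ≤ J - k := min_le_right _ _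
        omega
      · rw [hzm]; simp only [c]; push_cast; ring
    · intro i
      constructor
      · simp only [c]; rw [div_le_iff₀ hJ]; exact hq1 i
      · simp only [c]; rw [mul_one_div, ← add_div, le_div_iff₀ hJ]; exact hq3 i
  | succ j ih =>
    intro hjk
    obtain ⟨C1, hC1, hC1'⟩ := ih (by omega)
    set p := k - j with hp
    have hp1 : 1 ≤ p := by omega
    have hp0 : (0 : ℝ) < p := by exact_mod_cast hp1
    let t : Fin p → ℝ := fun i => (i : ℝ) / p
    have ht : Function.Injective t := by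
      intro i j hij
      simp only [t] at hij
      rw [div_left_inj' hp0.ne'] at hij
      exact Fin.ext (by exact_mod_cast hij)
    have ht1 : ∀ i, t i ∈ Icc (0 : ℝ) 1 := by
      intro i
      refine ⟨by positivity, ?_⟩
      rw [div_le_one hp0]
      exact_mod_cast i.2.le
    obtain ⟨C2, hC2, hC2'⟩ := seg p hp1 t ht ht1
    refine ⟨C2 * (C1 + 1), by positivity, ?_⟩
    intro f U J hU hf hsub hkJ hPB h0 y hy r
    have hJ : (0 : ℝ) < J := by exact_mod_cast (lt_of_lt_of_le hk hkJ)
    have hJ1 : (1 : ℝ) ≤ J := by exact_mod_cast (hk.trans hkJ)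
    have hjp : j + p = k := by omega
    set δ : ℝ := 1 / (J : ℝ) with hδ
    have hδ0 : 0 < δ := by positivity
    have hδ1 : δ ≤ 1 := by rw [hδ, div_le_one hJ]; exact hJ1
    let i0 : Fin d := r 0
    let a : ℝ := min (y i0) (1 - δ)
    have ha0 : 0 ≤ a := le_min (hy.1 i0) (by linarith)
    have ha1 : a ≤ 1 - δ := min_le_right _ _
    have ha2 : a ≤ y i0 := min_le_left _ _
    have ha3 : y i0 ≤ a + δ := by
      rcases min_cases (y i0) (1 - δ) with h | h
      · have : a = y i0 := h.1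
        linarith
      · have : a = 1 - δ := h.1
        have h2 : y i0 ≤ 1 := hy.2 i0
        linarith
    let y0 : Fin d → ℝ := Function.update y i0 a
    let w : Fin d → ℝ := δ • ev i0
    let v : Fin j → (Fin d → ℝ) := fun m => ev (r m.succ)
    have hline : ∀ s : ℝ, ∀ i, (y0 + s • w) i = if i = i0 then a + s * δ else y i := by
      intro s i
      by_cases hi : i = i0
      · subst hi
        simp [y0, w, ev]
      · simp [y0, w, ev, hi, Function.update_of_ne hi, Pi.single_eq_of_ne hi]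
    have hmem : ∀ s ∈ Icc (0 : ℝ) 1, y0 + s • w ∈ Icc (0 : Fin d → ℝ) 1 := by
      intro s hs
      constructor
      · intro i
        rw [hline]
        by_cases hi : i = i0
        · simp only [hi, if_true, Pi.zero_apply]
          have := mul_nonneg hs.1 hδ0.le; linarith
        · simp only [hi, if_false]; exact hy.1 i
      · intro i
        rw [hline]
        by_cases hi : i = i0
        · simp only [hi, if_true, Pi.one_apply]
          have := mul_le_mul_of_nonneg_right hs.2 hδ0.le; linarith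
        · simp only [hi, if_false]; exact hy.2 i
    have hs0 : (y i0 - a) / δ ∈ Icc (0 : ℝ) 1 := by
      constructor
      · exact div_nonneg (by linarith) hδ0.le
      · rw [div_le_one hδ0]; linarith
    have hy' : y0 + ((y i0 - a) / δ) • w = y := by
      funext i
      rw [hline]
      by_cases hi : i = i0
      · simp only [hi, if_true]
        field_simp
        ring
      · simp only [hi, if_false]
    have hPBj := hC1' f U J hU hf hsub hkJ hPB h0
    have hmain := (hC2' d j f U 1 (C1 * δ ^ p) hU (by rw [hjp]; exact hf) zero_le_one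
      (by positivity) v y0 w (fun s hs => hsub (hmem s hs))
      (fun s hs => by rw [hjp]; exact hPB _ (hmem s hs))
      (fun i => hPBj _ (hmem _ (ht1 i)) (fun m => r m.succ)) _ hs0).2
    rw [hy'] at hmain
    have hv : ∏ l, ∑ i, |v l i| = 1 := by
      apply Finset.prod_eq_one
      intro l _
      exact sum_abs_ev _
    have hw : ∑ i, |w i| = δ := by
      have : ∀ i, |w i| = δ * |(ev i0 : Fin d → ℝ) i| := by
        intro i
        simp only [w, Pi.smul_apply, smul_eq_mul, abs_mul]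
        rw [abs_of_pos hδ0]
      rw [Finset.sum_congr rfl (fun i _ => this i), ← Finset.mul_sum, sum_abs_ev, mul_one]
    rw [hv, hw, one_mul, one_mul] at hmain
    have hcons : iteratedFDeriv ℝ (j + 1) f y (Fin.cons w v : Fin (j + 1) → (Fin d → ℝ)) =
        δ * iteratedFDeriv ℝ (j + 1) f y (fun m => ev (r m)) := by
      have h1 : (fun m => ev (r m) : Fin (j + 1) → (Fin d → ℝ)) =
          (Fin.cons (ev i0) v : Fin (j + 1) → (Fin d → ℝ)) := by
        funext m
        refine Fin.cases ?_ (fun m => ?_) m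
        · simp [i0]
        · simp [v]
      rw [h1]
      have h2 := (iteratedFDeriv ℝ (j + 1) f y).cons_smul v δ (ev i0)
      simpa [w] using h2
    rw [hcons, abs_mul, abs_of_pos hδ0] at hmain
    have hpow : δ ^ p = δ * δ ^ (k - (j + 1)) := by
      rw [← pow_succ']
      congr 1
      omega
    have hfin : δ * |iteratedFDeriv ℝ (j + 1) f y (fun m => ev (r m))| ≤
        δ * (C2 * (C1 + 1) * δ ^ (k - (j + 1))) := by
      calc δ * |iteratedFDeriv ℝ (j + 1) f y (fun m => ev (r m))| ≤ C2 * (C1 * δ ^ p + δ ^ p) := hmain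
        _ = δ * (C2 * (C1 + 1) * δ ^ (k - (j + 1))) := by rw [hpow]; ring
    exact le_of_mul_le_mul_left hfin hδ0

end Pool.Agent.Helper43.Quad
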