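import Mathlib
import Pool.Agent.Helper43.Quad.Blocks

set_option autoImplicit false

open Set

namespace Pool.Agent.Helper43.Quad

/-- Functions on a domain with the interior cone property which vanish on a grid are small. -/
lemma cone_small (d k : ℕ) (hk : 1 ≤ k) (θ r : ℝ) (hθ : 0 < θ) (hθ1 : θ ≤ 1) (hr : 0 < r) :
    ∃ C δ0 : ℝ, 0 ≤ C ∧ 0 < δ0 ∧ ∀ (f : (Fin d → ℝ) → ℝ) (U : Set (Fin d → ℝ)) (δ : ℝ),
      IsOpen U → ContDiffOn ℝ k f U → 0 < δ → δ ≤ δ0 →
      (∀ x ∈ U, ∃ v : Fin d → ℝ, ‖v‖ ≤ 1 ∧ ∀ t : ℝ, 0 < t → t ≤ r →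
        Metric.closedBall (x + t • v) (θ * t) ⊆ U) →
      (∀ y ∈ U, PB k f y 1) →
      (∀ y ∈ U, (∀ i, ∃ m : ℤ, y i = m * δ) → f y = 0) →
      ∀ x ∈ U, |f x| ≤ C * δ ^ k := by
  classical
  obtain ⟨C1, hC1, hC1'⟩ := block d k hk
  have hk0 : (0 : ℝ) < k := by exact_mod_cast hk
  set K : ℝ := (k + 1) / θ with hK
  have hKpos : 0 < K := by positivity
  have hθK : θ * K = k + 1 := by rw [hK]; field_simp
  have hK1 : (k : ℝ) + 1 ≤ K := by
    rw [hK, le_div_iff₀ hθ]; nlinarith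
  set κ : ℝ := k / (4 * K) with hκ
  have hκpos : 0 < κ := by positivity
  have hκ1 : κ ≤ 1 := by
    rw [hκ, div_le_one (by positivity)]; linarith
  let t : Fin k → ℝ := fun i => 1 - κ * ((i : ℝ) / k)
  have ht : Function.Injective t := by
    intro i j hij
    simp only [t, sub_right_inj, mul_eq_mul_left_iff, hκpos.ne', or_false] at hij
    rw [div_left_inj' hk0.ne'] at hij
    exact Fin.ext (by exact_mod_cast hij)
  have hfrac : ∀ i : Fin k, 0 ≤ (i : ℝ) / k ∧ (i : ℝ) / k ≤ 1 := by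
    intro i
    refine ⟨by positivity, ?_⟩
    rw [div_le_one hk0]
    exact_mod_cast i.2.le
  have ht1 : ∀ i, t i ∈ Icc (0 : ℝ) 1 := by
    intro i
    obtain ⟨h1, h2⟩ := hfrac i
    have h3 : κ * ((i : ℝ) / k) ≤ 1 := by nlinarith
    have h4 : 0 ≤ κ * ((i : ℝ) / k) := by positivity
    exact ⟨by simp only [t]; linarith, by simp only [t]; linarith⟩
  obtain ⟨C2, hC2, hC2'⟩ := seg k hk t ht ht1
  refine ⟨C2 * (C1 + ((d : ℝ) * (2 * K)) ^ k), r / K, by positivity, by positivity, ?_⟩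
  intro f U δ hU hf hδ hδ0 hcone hPB h0 x hx
  obtain ⟨v, hv, hball⟩ := hcone x hx
  have hKδ : 0 < K * δ := by positivity
  have hKδr : K * δ ≤ r := by
    have := (le_div_iff₀ hKpos).mp hδ0
    linarith
  have hθKδ : θ * (K * δ) = (k + 1) * δ := by rw [← mul_assoc, hθK]
  -- the centre of the ball
  let b : Fin d → ℝ := x + (K * δ) • v
  have hballb : Metric.closedBall b (θ * (K * δ)) ⊆ U := hball (K * δ) hKδ hKδr
  let q : Fin d → ℤ := fun i => ⌊b i / δ⌋
  let c : Fin d → ℝ := fun i => (q i : ℝ) * δ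
  have hc1 : ∀ i, c i ≤ b i := by
    intro i
    have := Int.floor_le (b i / δ)
    simp only [c, q]
    rwa [le_div_iff₀ hδ] at this
  have hc2 : ∀ i, b i ≤ c i + δ := by
    intro i
    have := (Int.lt_floor_add_one (b i / δ)).le
    simp only [c, q]
    rw [div_le_iff₀ hδ] at this
    linarith
  have hblock : ∀ z : Fin d → ℝ, (∀ i, c i ≤ z i ∧ z i ≤ c i + k * δ) →
      z ∈ Metric.closedBall b (θ * (K * δ)) := by
    intro z hz
    rw [Metric.mem_closedBall, dist_eq_norm, hθKδ, pi_norm_le_iff_of_nonneg (by positivity)]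
    intro i
    rw [Pi.sub_apply, Real.norm_eq_abs, abs_le]
    have h1 := hz i
    have h2 := hc1 i
    have h3 := hc2 i
    have h4 : 0 ≤ (k : ℝ) * δ := by positivity
    constructor
    · nlinarith
    · nlinarith
  have hblockf : ∀ y : Fin d → ℝ, (∀ i, c i ≤ y i ∧ y i ≤ c i + k * δ) → |f y| ≤ C1 * δ ^ k := by
    refine hC1' f U δ c hU hf hδ (fun z hz => hballb (hblock z hz))
      (fun z hz => hPB z (hballb (hblock z hz))) ?_
    intro z hz
    have hz' : ∀ i, c i ≤ z i ∧ z i ≤ c i + k * δ := by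
      intro i
      obtain ⟨m, hm, hzm⟩ := hz i
      rw [hzm]
      have h1 : (m : ℝ) ≤ k := by exact_mod_cast hm.le
      have h2 : (m : ℝ) * δ ≤ k * δ := mul_le_mul_of_nonneg_right h1 hδ.le
      have h3 : 0 ≤ (m : ℝ) * δ := by positivity
      exact ⟨by linarith, by linarith⟩
    apply h0 z (hballb (hblock z hz'))
    intro i
    obtain ⟨m, hm, hzm⟩ := hz i
    refine ⟨q i + m, ?_⟩
    rw [hzm]; simp only [c]; push_cast; ring
  -- the centre of the block
  let z : Fin d → ℝ := fun i => c i + k * δ / 2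
  have hzb : ∀ i, c i ≤ z i ∧ z i ≤ c i + k * δ := by
    intro i
    have h4 : 0 ≤ (k : ℝ) * δ := by positivity
    exact ⟨by simp only [z]; linarith, by simp only [z]; linarith⟩
  have hzball := hblock z hzb
  let w : Fin d → ℝ := z - x
  have hwnorm : ‖w‖ ≤ 2 * K * δ := by
    have h1 : w = (z - b) + (K * δ) • v := by
      funext i; simp only [w, b, Pi.add_apply, Pi.sub_apply, Pi.smul_apply, smul_eq_mul]; ring
    rw [h1]
    refine (norm_add_le _ _).trans ?_
    rw [Metric.mem_closedBall, dist_eq_norm, hθKδ] at hzball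
    have h2 : ‖(K * δ) • v‖ ≤ K * δ := by
      rw [norm_smul, Real.norm_eq_abs, abs_of_pos hKδ]
      calc K * δ * ‖v‖ ≤ K * δ * 1 := mul_le_mul_of_nonneg_left hv hKδ.le
        _ = K * δ := mul_one _
    have h3 : ((k : ℝ) + 1) * δ ≤ K * δ := mul_le_mul_of_nonneg_right hK1 hδ.le
    linarith
  have hseg : ∀ s ∈ Icc (0 : ℝ) 1, x + s • w ∈ U := by
    intro s hs
    rcases hs.1.eq_or_lt with h | h
    · rw [← h]; simpa using hx
    · apply hball (s * (K * δ)) (by positivity)
        ((mul_le_of_le_one_left hKδ.le hs.2).trans hKδr)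
      rw [Metric.mem_closedBall, dist_eq_norm]
      have h1 : x + s • w - (x + (s * (K * δ)) • v) = s • (z - b) := by
        funext i; simp [w, b]; ring
      rw [h1, norm_smul, Real.norm_eq_abs, abs_of_pos h]
      rw [Metric.mem_closedBall, dist_eq_norm] at hzball
      calc s * ‖z - b‖ ≤ s * (θ * (K * δ)) := mul_le_mul_of_nonneg_left hzball h.le
        _ = θ * (s * (K * δ)) := by ring
  have hnodes : ∀ i : Fin k, |iteratedFDeriv ℝ 0 f (x + t i • w) (fun x => x.elim0)| ≤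
      C1 * δ ^ k := by
    intro i
    rw [iteratedFDeriv_zero_apply]
    apply hblockf
    intro i'
    have h1 : (x + t i • w) i' = z i' - κ * ((i : ℝ) / k) * w i' := by
      simp only [t, w, Pi.add_apply, Pi.smul_apply, Pi.sub_apply, smul_eq_mul]; ring
    rw [h1]
    obtain ⟨h2, h3⟩ := hfrac i
    have h4 : |κ * ((i : ℝ) / k) * w i'| ≤ k * δ / 2 := by
      rw [abs_mul, abs_of_nonneg (by positivity)]
      have h5 : |w i'| ≤ 2 * K * δ := (norm_le_pi_norm w i').trans hwnorm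
      calc κ * ((i : ℝ) / k) * |w i'| ≤ κ * 1 * (2 * K * δ) := by
            apply mul_le_mul _ h5 (abs_nonneg _) (by positivity)
            exact mul_le_mul_of_nonneg_left h3 hκpos.le
        _ = k * δ / 2 := by rw [hκ]; field_simp; ring
    rw [abs_le] at h4
    simp only [z]
    constructor
    · linarith [h4.2]
    · linarith [h4.1]
  have hmain := (hC2' d 0 f U 1 (C1 * δ ^ k) hU (by simpa using hf) zero_le_one (by positivity)
      (fun x => x.elim0) x w hseg
      (fun s hs => by rw [zero_add]; exact hPB _ (hseg s hs)) hnodes 0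
      (left_mem_Icc.mpr zero_le_one)).1
  rw [iteratedFDeriv_zero_apply, zero_smul, add_zero] at hmain
  simp only [Finset.univ_eq_empty, Finset.prod_empty, one_mul] at hmain
  have hwsum : ∑ i, |w i| ≤ d * (2 * K) * δ := by
    refine (sum_abs_le w).trans ?_
    calc (d : ℝ) * ‖w‖ ≤ d * (2 * K * δ) := mul_le_mul_of_nonneg_left hwnorm (Nat.cast_nonneg d)
      _ = _ := by ring
  calc |f x| ≤ C2 * (C1 * δ ^ k + (∑ i, |w i|) ^ k) := hmain
    _ ≤ C2 * (C1 * δ ^ k + (d * (2 * K) * δ) ^ k) := by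
        apply mul_le_mul_of_nonneg_left _ hC2
        gcongr
    _ = C2 * (C1 + ((d : ℝ) * (2 * K)) ^ k) * δ ^ k := by rw [mul_pow]; ring

end Pool.Agent.Helper43.Quad
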