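import Mathlib
import Pool.Agent.Helper43.Quad.Cone

set_option autoImplicit false

open Set MeasureTheory

namespace Pool.Agent.Helper43.Quad

lemma iter_affine {V : Type*} [NormedAddCommGroup V] [NormedSpace ℝ V] (f : V → ℝ) (c : V) (h : ℝ)
    (hh : h ≠ 0) (n : ℕ) (y : V) (v : Fin n → V) :
    iteratedFDeriv ℝ n (fun y => f (c + h • y)) y v =
      h ^ n * iteratedFDeriv ℝ n f (c + h • y) v := by
  let g : V ≃L[ℝ] V := ContinuousLinearEquiv.smulLeft (Units.mk0 h hh)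
  have hg : ∀ y, g y = h • y := fun y => rfl
  have h1 : (fun y => f (c + h • y)) = (fun x => f (c + x)) ∘ g := rfl
  have h2 := g.iteratedFDerivWithin_comp_right (fun x => f (c + x)) (s := Set.univ)
    uniqueDiffOn_univ (x := y) (Set.mem_univ _) n
  rw [Set.preimage_univ, iteratedFDerivWithin_univ, iteratedFDerivWithin_univ] at h2
  rw [h1, h2, iteratedFDeriv_comp_add_left]
  rw [ContinuousMultilinearMap.compContinuousLinearMap_apply]
  have h3 : (fun i => (g : V →L[ℝ] V) (v i)) = fun i => h • v i := rfl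
  rw [h3, ContinuousMultilinearMap.map_smul_univ]
  simp [hg]

/-- Compactly supported test functions on the open unit cube. -/
def cK {d : ℕ} (k : ℕ) (g : (Fin d → ℝ) → ℝ) : Prop :=
  ContDiff ℝ k g ∧ (tsupport g ⊆ {x | ∀ i, 0 < x i ∧ x i < 1}) ∧ ∀ x, PB k g x 1

lemma cK_zero_outside {d k : ℕ} {g : (Fin d → ℝ) → ℝ} (hg : cK k g) {x : Fin d → ℝ}
    (hx : ¬ ∀ i, 0 < x i ∧ x i < 1) (n : ℕ) : iteratedFDeriv ℝ n g x = 0 := by
  have h1 : x ∉ tsupport g := fun h => hx (hg.2.1 h)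
  have h2 : x ∉ Function.support (iteratedFDeriv ℝ n g) :=
    fun h => h1 (support_iteratedFDeriv_subset n h)
  simpa [Function.mem_support] using h2

lemma cK_lower {d k : ℕ} (hd : 0 < d) {g : (Fin d → ℝ) → ℝ} (hg : cK k g) :
    ∀ m j : ℕ, j + m = k → ∀ x, PB j g x 1 := by
  classical
  intro m
  induction m with
  | zero => intro j hj x; rw [add_zero] at hj; rw [hj]; exact hg.2.2 x
  | succ m ih =>
    intro j hj x r
    have ih' := ih (j + 1) (by omega)
    by_cases hx : ∀ i, 0 < x i ∧ x i < 1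
    · let i0 : Fin d := ⟨0, hd⟩
      let v : Fin j → (Fin d → ℝ) := fun m => ev (r m)
      let y0 : Fin d → ℝ := Function.update x i0 0
      let w : Fin d → ℝ := (x i0) • ev i0
      have hy0 : ¬ ∀ i, 0 < y0 i ∧ y0 i < 1 := by
        intro h
        have := (h i0).1
        simp [y0] at this
      have h0 : iteratedFDeriv ℝ j g y0 v = 0 := by rw [cK_zero_outside hg hy0]; rfl
      have h1 : y0 + (1 : ℝ) • w = x := by
        funext i
        by_cases hi : i = i0
        · subst hi; simp [y0, w, ev]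
        · simp [y0, w, ev, hi]
      have hder : ∀ s ∈ Icc (0 : ℝ) 1, HasDerivWithinAt
          (fun s : ℝ => iteratedFDeriv ℝ j g (y0 + s • w) v)
          (iteratedFDeriv ℝ (j + 1) g (y0 + s • w) (Fin.cons w v : Fin (j + 1) → (Fin d → ℝ)))
          (Icc 0 1) s := by
        intro s _
        exact (hasDerivAt_line (k := k) isOpen_univ hg.1.contDiffOn (by omega) v y0 w s
          (Set.mem_univ _)).hasDerivWithinAt
      have hbd : ∀ s ∈ Icc (0 : ℝ) 1, ‖iteratedFDeriv ℝ (j + 1) g (y0 + s • w)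
          (Fin.cons w v : Fin (j + 1) → (Fin d → ℝ))‖ ≤ 1 := by
        intro s _
        have h2 := ih' (y0 + s • w)
        have h3 := h2.bound (Fin.cons w v : Fin (j + 1) → (Fin d → ℝ))
        rw [Fin.prod_univ_succ] at h3
        simp only [Fin.cons_zero, Fin.cons_succ] at h3
        have h4 : ∏ l, ∑ i, |v l i| = 1 := Finset.prod_eq_one (fun l _ => sum_abs_ev _)
        have h5 : ∑ i, |w i| = x i0 := by
          have : ∀ i, |w i| = x i0 * |(ev i0 : Fin d → ℝ) i| := by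
            intro i
            simp only [w, Pi.smul_apply, smul_eq_mul, abs_mul]
            rw [abs_of_pos (hx i0).1]
          rw [Finset.sum_congr rfl (fun i _ => this i), ← Finset.mul_sum, sum_abs_ev, mul_one]
        rw [h4, h5, mul_one, one_mul] at h3
        rw [Real.norm_eq_abs]
        exact h3.trans (hx i0).2.le
      have hmv := (convex_Icc (0 : ℝ) 1).norm_image_sub_le_of_norm_hasDerivWithin_le hder hbd
        (left_mem_Icc.mpr zero_le_one) (right_mem_Icc.mpr zero_le_one)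
      rw [h1] at hmv
      simp only [zero_smul, add_zero, h0, sub_zero, norm_one, mul_one] at hmv
      rwa [Real.norm_eq_abs] at hmv
    · rw [cK_zero_outside hg hx]; simp

lemma cK_all {d k : ℕ} (hd : 0 < d) {g : (Fin d → ℝ) → ℝ} (hg : cK k g) {j : ℕ} (hj : j ≤ k)
    (x : Fin d → ℝ) : PB j g x 1 := cK_lower hd hg (k - j) j (by omega) x

/-- the scaled copy of `g` in the cell of index `z` of the mesh `1/N` -/
noncomputable def cell_fun {d : ℕ} (k N : ℕ) (z : Fin d → ℤ) (g : (Fin d → ℝ) → ℝ) :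
    (Fin d → ℝ) → ℝ := fun x => (1 / (N : ℝ)) ^ k * g ((fun i => -(z i : ℝ)) + (N : ℝ) • x)

lemma cell_fun_contDiff {d k N : ℕ} (z : Fin d → ℤ) {g : (Fin d → ℝ) → ℝ} (hg : cK k g) :
    ContDiff ℝ k (cell_fun k N z g) := by
  unfold cell_fun
  exact contDiff_const.mul (hg.1.comp (contDiff_const.add (contDiff_id.const_smul _)))

lemma cell_fun_iter {d k N : ℕ} (hN : 0 < N) (z : Fin d → ℤ) {g : (Fin d → ℝ) → ℝ} (hg : cK k g)
    {j : ℕ} (hj : j ≤ k) (x : Fin d → ℝ) (v : Fin j → (Fin d → ℝ)) :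
    iteratedFDeriv ℝ j (cell_fun k N z g) x v = (1 / (N : ℝ)) ^ (k - j) *
      iteratedFDeriv ℝ j g ((fun i => -(z i : ℝ)) + (N : ℝ) • x) v := by
  have hN0 : (N : ℝ) ≠ 0 := by exact_mod_cast hN.ne'
  have h1 : cell_fun k N z g = fun x => (1 / (N : ℝ)) ^ k •
      (fun x => g ((fun i => -(z i : ℝ)) + (N : ℝ) • x)) x := by
    funext x; simp [cell_fun]
  have hc : ContDiffAt ℝ j (fun x => g ((fun i => -(z i : ℝ)) + (N : ℝ) • x)) x := by
    have : ContDiff ℝ k (fun x => g ((fun i => -(z i : ℝ)) + (N : ℝ) • x)) :=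
      hg.1.comp (contDiff_const.add (contDiff_id.const_smul _))
    exact (this.of_le (by exact_mod_cast hj)).contDiffAt
  rw [h1, iteratedFDeriv_const_smul_apply' hc, smul_apply,
    iter_affine g _ _ hN0, smul_eq_mul, ← mul_assoc]
  congr 1
  have h2 : (1 / (N : ℝ)) ^ k = (1 / (N : ℝ)) ^ (k - j) * (1 / (N : ℝ)) ^ j := by
    rw [← pow_add]; congr 1; omega
  rw [h2, mul_assoc, ← mul_pow, one_div, inv_mul_cancel₀ hN0, one_pow, mul_one]

/-- index of the cell containing a point -/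
noncomputable def idx {d : ℕ} (N : ℕ) (x : Fin d → ℝ) : Fin d → ℤ := fun i => ⌊(N : ℝ) * x i⌋

lemma idx_of_mem {d N : ℕ} (z : Fin d → ℤ) (x : Fin d → ℝ)
    (h : ∀ i, 0 < ((fun i => -(z i : ℝ)) + (N : ℝ) • x) i ∧
      ((fun i => -(z i : ℝ)) + (N : ℝ) • x) i < 1) : z = idx N x := by
  funext i
  have h1 := h i
  simp only [Pi.add_apply, Pi.smul_apply, smul_eq_mul] at h1
  symm
  unfold idx
  rw [Int.floor_eq_iff]
  constructor
  · linarith [h1.1]
  · linarith [h1.2]

lemma cell_fun_off {d k N : ℕ} (hN : 0 < N) (z : Fin d → ℤ) {g : (Fin d → ℝ) → ℝ} (hg : cK k g)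
    {j : ℕ} (hj : j ≤ k) (x : Fin d → ℝ) (v : Fin j → (Fin d → ℝ)) (hz : z ≠ idx N x) :
    iteratedFDeriv ℝ j (cell_fun k N z g) x v = 0 := by
  rw [cell_fun_iter hN z hg hj]
  have : ¬ ∀ i, 0 < ((fun i => -(z i : ℝ)) + (N : ℝ) • x) i ∧
      ((fun i => -(z i : ℝ)) + (N : ℝ) • x) i < 1 := fun h => hz (idx_of_mem z x h)
  rw [cK_zero_outside hg this]
  simp

/-- the assembled function -/
noncomputable def asm {d : ℕ} (k N : ℕ) (Z : Finset (Fin d → ℤ))
    (g : (Fin d → ℤ) → (Fin d → ℝ) → ℝ) : (Fin d → ℝ) → ℝ :=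
  fun x => ∑ z ∈ Z, cell_fun k N z (g z) x

lemma asm_contDiff {d k N : ℕ} (Z : Finset (Fin d → ℤ)) (g : (Fin d → ℤ) → (Fin d → ℝ) → ℝ)
    (hg : ∀ z, cK k (g z)) : ContDiff ℝ k (asm k N Z g) :=
  ContDiff.sum (fun z _ => cell_fun_contDiff z (hg z))

lemma asm_iter {d k N : ℕ} (hN : 0 < N) (Z : Finset (Fin d → ℤ))
    (g : (Fin d → ℤ) → (Fin d → ℝ) → ℝ) (hg : ∀ z, cK k (g z)) {j : ℕ} (hj : j ≤ k)
    (x : Fin d → ℝ) (v : Fin j → (Fin d → ℝ)) :
    iteratedFDeriv ℝ j (asm k N Z g) x v =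
      if idx N x ∈ Z then iteratedFDeriv ℝ j (cell_fun k N (idx N x) (g (idx N x))) x v else 0 := by
  classical
  have h1 : iteratedFDeriv ℝ j (asm k N Z g) x =
      ∑ z ∈ Z, iteratedFDeriv ℝ j (cell_fun k N z (g z)) x := by
    unfold asm
    rw [iteratedFDeriv_fun_sum_apply]
    intro z _
    exact ((cell_fun_contDiff z (hg z)).of_le (by exact_mod_cast hj)).contDiffAt
  rw [h1, sum_apply]
  by_cases h : idx N x ∈ Z
  · rw [if_pos h, Finset.sum_eq_single (idx N x)]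
    · intro z _ hz
      exact cell_fun_off hN z (hg z) hj x v hz
    · intro h'; exact absurd h h'
  · rw [if_neg h]
    refine Finset.sum_eq_zero (fun z hz => ?_)
    exact cell_fun_off hN z (hg z) hj x v (fun h' => h (h' ▸ hz))

lemma asm_PB {d k N : ℕ} (hd : 0 < d) (hN : 0 < N) (Z : Finset (Fin d → ℤ))
    (g : (Fin d → ℤ) → (Fin d → ℝ) → ℝ) (hg : ∀ z, cK k (g z)) {j : ℕ} (hj : j ≤ k)
    (x : Fin d → ℝ) : PB j (asm k N Z g) x 1 := by
  intro r
  rw [asm_iter hN Z g hg hj]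
  by_cases h : idx N x ∈ Z
  · rw [if_pos h, cell_fun_iter hN _ (hg _) hj, abs_mul]
    have h1 := cK_all hd (hg (idx N x)) hj ((fun i => -(idx N x i : ℝ)) + (N : ℝ) • x) r
    have hN1 : (1 : ℝ) ≤ N := by exact_mod_cast hN
    have h2 : |(1 / (N : ℝ)) ^ (k - j)| ≤ 1 := by
      rw [abs_pow, abs_of_nonneg (by positivity)]
      exact pow_le_one₀ (by positivity) (by rw [div_le_one (by positivity)]; exact hN1)
    calc _ ≤ 1 * 1 := mul_le_mul h2 h1 (abs_nonneg _) zero_le_one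
      _ = 1 := one_mul 1
  · rw [if_neg h]; simp

lemma asm_value {d k N : ℕ} (hN : 0 < N) (Z : Finset (Fin d → ℤ))
    (g : (Fin d → ℤ) → (Fin d → ℝ) → ℝ) (hg : ∀ z, cK k (g z)) (x : Fin d → ℝ) :
    asm k N Z g x = if idx N x ∈ Z then
      (1 / (N : ℝ)) ^ k * g (idx N x) ((fun i => -(idx N x i : ℝ)) + (N : ℝ) • x) else 0 := by
  have h := asm_iter hN Z g hg (Nat.zero_le k) x (fun x => x.elim0)
  rw [iteratedFDeriv_zero_apply, iteratedFDeriv_zero_apply] at h
  exact h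

lemma cK_compact {d k : ℕ} {g : (Fin d → ℝ) → ℝ} (hg : cK k g) : HasCompactSupport g := by
  apply HasCompactSupport.intro (K := Icc (0 : Fin d → ℝ) 1) isCompact_Icc
  intro x hx
  by_contra h
  have h1 : x ∈ tsupport g := subset_tsupport g (Function.mem_support.mpr h)
  have h2 := hg.2.1 h1
  exact hx ⟨fun i => (h2 i).1.le, fun i => (h2 i).2.le⟩

lemma cK_integrable {d k : ℕ} {g : (Fin d → ℝ) → ℝ} (hg : cK k g) : Integrable g :=
  hg.1.continuous.integrable_of_hasCompactSupport (cK_compact hg)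

lemma cell_fun_integral {d k N : ℕ} (hN : 0 < N) (z : Fin d → ℤ) (g : (Fin d → ℝ) → ℝ) :
    ∫ x, cell_fun k N z g x = (1 / (N : ℝ)) ^ (k + d) * ∫ x, g x := by
  unfold cell_fun
  rw [integral_const_mul]
  have hN0 : (0 : ℝ) < N := by exact_mod_cast hN
  have h1 := Measure.integral_comp_smul (volume : Measure (Fin d → ℝ))
    (fun x => g ((fun i => -(z i : ℝ)) + x)) (N : ℝ)
  have h2 : ∫ x, g ((fun i => -(z i : ℝ)) + x) = ∫ x, g x :=
    integral_add_left_eq_self g _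
  rw [h1, h2, Module.finrank_fin_fun, smul_eq_mul, ← mul_assoc]
  congr 1
  rw [abs_of_pos (by positivity), pow_add, one_div, inv_pow, inv_pow]

lemma asm_integral {d k N : ℕ} (hN : 0 < N) (Z : Finset (Fin d → ℤ))
    (g : (Fin d → ℤ) → (Fin d → ℝ) → ℝ) (hg : ∀ z, cK k (g z)) :
    ∫ x, asm k N Z g x = (1 / (N : ℝ)) ^ (k + d) * ∑ z ∈ Z, ∫ x, g z x := by
  unfold asm
  rw [integral_finsetSum]
  · rw [Finset.mul_sum]
    exact Finset.sum_congr rfl (fun z _ => cell_fun_integral hN z (g z))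
  · intro z _
    have hN0 : (N : ℝ) ≠ 0 := by exact_mod_cast hN.ne'
    unfold cell_fun
    have h1 : Integrable (fun x => g z ((fun i => -(z i : ℝ)) + x)) :=
      (cK_integrable (hg z)).comp_add_left _
    exact (h1.comp_smul hN0).const_mul _

end Pool.Agent.Helper43.Quad
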