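import Mathlib
import Pool.Agent.Helper43.Quad.Bumps

set_option autoImplicit false

open Set MeasureTheory Topology

namespace Pool.Agent.Helper43.Quad

lemma isOpen_cube (d : ℕ) : IsOpen {x : Fin d → ℝ | ∀ i, 0 < x i ∧ x i < 1} := by
  have : {x : Fin d → ℝ | ∀ i, 0 < x i ∧ x i < 1} = Set.pi Set.univ (fun _ => Ioo (0 : ℝ) 1) := by
    ext x; simp [Set.mem_pi]
  rw [this]
  exact isOpen_set_pi Set.finite_univ (fun _ _ => isOpen_Ioo)

lemma volume_open_cube (d : ℕ) : volume {x : Fin d → ℝ | ∀ i, 0 < x i ∧ x i < 1} = 1 := by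
  have : {x : Fin d → ℝ | ∀ i, 0 < x i ∧ x i < 1} = Set.pi Set.univ (fun _ => Ioo (0 : ℝ) 1) := by
    ext x; simp [Set.mem_pi]
  rw [this, Real.volume_pi_Ioo]
  simp

lemma volume_closed_cube (d : ℕ) : volume (Icc (0 : Fin d → ℝ) 1) = 1 := by
  rw [Real.volume_Icc_pi]
  simp

lemma exists_cutoff (d k : ℕ) (ε : ℝ) (hε : 0 < ε) :
    ∃ (χ : (Fin d → ℝ) → ℝ) (B : ℝ), ContDiff ℝ k χ ∧
      tsupport χ ⊆ {x | ∀ i, 0 < x i ∧ x i < 1} ∧ (∀ x, 0 ≤ χ x ∧ χ x ≤ 1) ∧
      ∫ x in Icc (0 : Fin d → ℝ) 1, (1 - χ x) ≤ ε ∧ 0 ≤ B ∧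
      ∀ j ≤ k, ∀ x, ‖iteratedFDeriv ℝ j χ x‖ ≤ B := by
  classical
  set Q : Set (Fin d → ℝ) := {x | ∀ i, 0 < x i ∧ x i < 1} with hQ
  have hQo : IsOpen Q := isOpen_cube d
  have hr : ENNReal.ofReal (1 - ε) < volume Q := by
    rw [hQ, volume_open_cube]
    rw [← ENNReal.ofReal_one, ENNReal.ofReal_lt_ofReal_iff zero_lt_one]
    linarith
  obtain ⟨K, hKQ, hKc, hKv⟩ := hQo.exists_lt_isCompact hr
  obtain ⟨f, hf0, hf1, hf⟩ := exists_contMDiffMap_zero_one_nhds_of_isClosed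
    (modelWithCornersSelf ℝ (Fin d → ℝ)) (n := (k : ℕ∞)) hQo.isClosed_compl hKc.isClosed
    (by rw [Set.disjoint_left]; intro x hx hx'; exact hx (hKQ hx'))
  have hfd : ContDiff ℝ k (f : (Fin d → ℝ) → ℝ) := f.contMDiff.contDiff
  have hsupp : tsupport (f : (Fin d → ℝ) → ℝ) ⊆ Q := by
    intro x hx
    by_contra hxQ
    have h1 : ∀ᶠ y in 𝓝 x, f y = 0 := (eventually_nhdsSet_iff_forall.mp hf0) x hxQ
    have h2 : x ∉ tsupport (f : (Fin d → ℝ) → ℝ) := notMem_tsupport_iff_eventuallyEq.mpr h1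
    exact h2 hx
  have hcomp : HasCompactSupport (f : (Fin d → ℝ) → ℝ) := by
    apply HasCompactSupport.intro (K := Icc (0 : Fin d → ℝ) 1) isCompact_Icc
    intro x hx
    by_contra h
    have h1 : x ∈ tsupport (f : (Fin d → ℝ) → ℝ) := subset_tsupport _ (Function.mem_support.mpr h)
    have h2 := hsupp h1
    exact hx ⟨fun i => (h2 i).1.le, fun i => (h2 i).2.le⟩
  have hbd : ∀ j : ℕ, ∃ B : ℝ, 0 ≤ B ∧ (j ≤ k → ∀ x, ‖iteratedFDeriv ℝ j (f : (Fin d → ℝ) → ℝ) x‖ ≤ B) := by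
    intro j
    by_cases hj : j ≤ k
    · obtain ⟨C, hC⟩ := (hcomp.iteratedFDeriv (𝕜 := ℝ) j).exists_bound_of_continuous
        (hfd.continuous_iteratedFDeriv (by exact_mod_cast hj))
      exact ⟨C, (norm_nonneg _).trans (hC 0), fun _ => hC⟩
    · exact ⟨0, le_refl _, fun h => absurd h hj⟩
  choose Bj hBj0 hBj using hbd
  refine ⟨f, ∑ j ∈ Finset.range (k + 1), Bj j, hfd, hsupp, fun x => ⟨(hf x).1, (hf x).2⟩, ?_,
    Finset.sum_nonneg (fun j _ => hBj0 j), ?_⟩
  · -- the integral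
    have hKI : K ⊆ Icc (0 : Fin d → ℝ) 1 := by
      intro x hx
      have h2 := hKQ hx
      exact ⟨fun i => (h2 i).1.le, fun i => (h2 i).2.le⟩
    have hint : IntegrableOn (fun x => 1 - f x) (Icc (0 : Fin d → ℝ) 1) :=
      ((continuous_const.sub hfd.continuous).continuousOn).integrableOn_compact isCompact_Icc
    have hsplit : Icc (0 : Fin d → ℝ) 1 = K ∪ (Icc (0 : Fin d → ℝ) 1 \ K) :=
      (Set.union_sdiff_cancel hKI).symm
    rw [hsplit, setIntegral_union disjoint_sdiff_right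
      (measurableSet_Icc.diff hKc.isClosed.measurableSet) (hint.mono_set hKI)
      (hint.mono_set sdiff_subset)]
    have h1 : ∫ x in K, (1 - f x) = 0 := by
      rw [setIntegral_congr_fun hKc.isClosed.measurableSet (g := fun _ => (0 : ℝ))]
      · simp
      · intro x hx
        have h3 : ∀ᶠ y in 𝓝 x, f y = 1 := (eventually_nhdsSet_iff_forall.mp hf1) x hx
        simp [h3.self_of_nhds]
    rw [h1, zero_add]
    have hKfin : volume K ≠ ⊤ := hKc.measure_lt_top.ne
    have hvol : volume (Icc (0 : Fin d → ℝ) 1 \ K) = 1 - volume K := by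
      rw [measure_sdiff hKI hKc.isClosed.measurableSet.nullMeasurableSet hKfin, volume_closed_cube]
    have hvolr : (volume (Icc (0 : Fin d → ℝ) 1 \ K)).toReal ≤ ε := by
      rw [hvol]
      have hK1 : volume K ≤ 1 := by
        rw [← volume_closed_cube d]; exact measure_mono hKI
      rw [ENNReal.toReal_sub_of_le hK1 ENNReal.one_ne_top, ENNReal.toReal_one]
      have h4 : 1 - ε ≤ (volume K).toReal := by
        have h5 := hKv.le
        rw [ENNReal.ofReal_le_iff_le_toReal hKfin] at h5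
        exact h5
      linarith
    calc ∫ x in Icc (0 : Fin d → ℝ) 1 \ K, (1 - f x)
        ≤ ∫ x in Icc (0 : Fin d → ℝ) 1 \ K, (1 : ℝ) := by
          apply setIntegral_mono (hint.mono_set sdiff_subset)
          · exact ((continuous_const (y := (1 : ℝ))).continuousOn.integrableOn_compact
              isCompact_Icc).mono_set sdiff_subset
          · intro x; have := (hf x).1; simp only; linarith
      _ ≤ ε := by
          rw [setIntegral_const, smul_eq_mul, mul_one]; exact hvolr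
  · intro j hj x
    refine (hBj j hj x).trans ?_
    exact Finset.single_le_sum (f := Bj) (fun j _ => hBj0 j) (Finset.mem_range.mpr (by omega))

end Pool.Agent.Helper43.Quad
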