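import Mathlib
import Pool.Agent.Helper43.Quad.Cutoff

set_option autoImplicit false

open Set MeasureTheory Topology

namespace Pool.Agent.Helper43.Quad

/-- test functions up to the boundary of the closed unit cube, only the top order is bounded -/
def cG {d : ℕ} (k : ℕ) (g : (Fin d → ℝ) → ℝ) : Prop :=
  ∃ U : Set (Fin d → ℝ), IsOpen U ∧ Icc (0 : Fin d → ℝ) 1 ⊆ U ∧ ContDiffOn ℝ k g U ∧
    ∀ y ∈ Icc (0 : Fin d → ℝ) 1, PB k g y 1

/-- `g` vanishes on the grid of mesh `1/J` -/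
def gridZero {d : ℕ} (J : ℕ) (g : (Fin d → ℝ) → ℝ) : Prop :=
  ∀ y : Fin d → ℝ, (∀ i, ∃ m : ℕ, m ≤ J ∧ y i = (m : ℝ) / J) → g y = 0

lemma cube_unif (d k : ℕ) (hk : 1 ≤ k) :
    ∃ C : ℝ, 0 ≤ C ∧ ∀ j < k, ∀ (g : (Fin d → ℝ) → ℝ) (J : ℕ), cG k g → k ≤ J → gridZero J g →
      ∀ y ∈ Icc (0 : Fin d → ℝ) 1, PB j g y (C * (1 / (J : ℝ)) ^ (k - j)) := by
  classical
  have h : ∀ j : ℕ, ∃ C : ℝ, 0 ≤ C ∧ (j < k → ∀ (g : (Fin d → ℝ) → ℝ) (J : ℕ), cG k g → k ≤ J →
      gridZero J g → ∀ y ∈ Icc (0 : Fin d → ℝ) 1, PB j g y (C * (1 / (J : ℝ)) ^ (k - j))) := by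
    intro j
    by_cases hj : j < k
    · obtain ⟨C, hC, hC'⟩ := cube_deriv d k hk j hj
      refine ⟨C, hC, fun _ g J hg hkJ h0 => ?_⟩
      obtain ⟨U, hU, hsub, hcd, hPB⟩ := hg
      exact hC' g U J hU hcd hsub hkJ hPB h0
    · exact ⟨0, le_refl _, fun h => absurd h hj⟩
  choose Cj hCj0 hCj using h
  refine ⟨∑ j ∈ Finset.range k, Cj j, Finset.sum_nonneg (fun j _ => hCj0 j), ?_⟩
  intro j hj g J hg hkJ h0 y hy r
  refine (hCj j hj g J hg hkJ h0 y hy r).trans ?_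
  have h1 : Cj j ≤ ∑ j ∈ Finset.range k, Cj j :=
    Finset.single_le_sum (f := Cj) (fun j _ => hCj0 j) (Finset.mem_range.mpr hj)
  exact mul_le_mul_of_nonneg_right h1 (by positivity)

lemma opnorm_of_PB {d j : ℕ} {g : (Fin d → ℝ) → ℝ} {y : Fin d → ℝ} {B : ℝ} (hB : 0 ≤ B)
    (h : PB j g y B) : ‖iteratedFDeriv ℝ j g y‖ ≤ B * (d : ℝ) ^ j := by
  refine ContinuousMultilinearMap.opNorm_le_bound (by positivity) (fun v => ?_)
  rw [Real.norm_eq_abs]
  refine (h.bound v).trans ?_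
  rw [mul_assoc]
  refine mul_le_mul_of_nonneg_left ?_ hB
  calc ∏ m, ∑ i, |v m i| ≤ ∏ m, (d : ℝ) * ‖v m‖ :=
        Finset.prod_le_prod (fun m _ => Finset.sum_nonneg fun i _ => abs_nonneg _)
          (fun m _ => sum_abs_le (v m))
    _ = (d : ℝ) ^ j * ∏ m, ‖v m‖ := by
        rw [Finset.prod_mul_distrib, Finset.prod_const, Finset.card_univ, Fintype.card_fin]

lemma norm_ev_le {d : ℕ} (i : Fin d) : ‖(ev i : Fin d → ℝ)‖ ≤ 1 := by
  rw [pi_norm_le_iff_of_nonneg zero_le_one]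
  intro j
  unfold ev
  by_cases h : j = i
  · subst h; simp
  · simp [Pi.single_eq_of_ne h]

/-- Main term of the derivative of a product with a cutoff. -/
lemma product_PB (d k : ℕ) (hk : 1 ≤ k) (χ : (Fin d → ℝ) → ℝ) (B : ℝ) (hχ : ContDiff ℝ k χ)
    (hχ01 : ∀ x, 0 ≤ χ x ∧ χ x ≤ 1) (hB : 0 ≤ B) (hχB : ∀ j ≤ k, ∀ x, ‖iteratedFDeriv ℝ j χ x‖ ≤ B) :
    ∃ C : ℝ, 0 ≤ C ∧ ∀ (g : (Fin d → ℝ) → ℝ) (J : ℕ), cG k g → k ≤ J → gridZero J g →
      ∀ y ∈ Icc (0 : Fin d → ℝ) 1, PB k (fun x => χ x * g x) y (1 + C * (1 / (J : ℝ))) := by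
  obtain ⟨C0, hC0, hC0'⟩ := cube_unif d k hk
  refine ⟨∑ i ∈ Finset.range (k + 1), (k.choose i : ℝ) * B * (C0 * (d : ℝ) ^ (k - i)),
    Finset.sum_nonneg (fun i _ => by positivity), ?_⟩
  intro g J hg hkJ h0 y hy r
  have hg' := hg
  obtain ⟨U, hU, hsub, hcd, hPB⟩ := hg
  have hJ1 : (1 : ℝ) ≤ J := by exact_mod_cast (hk.trans hkJ)
  have hyU : y ∈ U := hsub hy
  have hJinv : (1 / (J : ℝ)) ≤ 1 := by rw [div_le_one (by positivity)]; exact hJ1
  have hJinv0 : 0 ≤ 1 / (J : ℝ) := by positivity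
  -- decomposition
  have hga : ContDiffAt ℝ k g y := hcd.contDiffAt (hU.mem_nhds hyU)
  have hχa : ContDiffAt ℝ k (fun x => χ x - χ y) y := (hχ.sub contDiff_const).contDiffAt
  have hdec : (fun x => χ x * g x) = (fun x => (χ x - χ y) * g x + χ y • g x) := by
    funext x; simp only [smul_eq_mul]; ring
  have h1 : iteratedFDeriv ℝ k (fun x => χ x * g x) y =
      iteratedFDeriv ℝ k (fun x => (χ x - χ y) * g x) y + χ y • iteratedFDeriv ℝ k g y := by
    have e1 : ContDiffAt ℝ k (fun x => (χ x - χ y) * g x) y := hχa.mul hga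
    have e2 : ContDiffAt ℝ k (fun x => χ y • g x) y := hga.const_smul (χ y)
    rw [hdec, fun_iteratedFDeriv_add_apply e1 e2, iteratedFDeriv_const_smul_apply' hga]
  -- remainder
  have h2 : ‖iteratedFDeriv ℝ k (fun x => (χ x - χ y) * g x) y‖ ≤
      (∑ i ∈ Finset.range (k + 1), (k.choose i : ℝ) * B * (C0 * (d : ℝ) ^ (k - i))) *
        (1 / (J : ℝ)) := by
    have h3 := norm_iteratedFDerivWithin_mul_le (s := U) (N := k)
      ((hχ.sub contDiff_const).contDiffOn (s := U) : ContDiffOn ℝ k (fun x => χ x - χ y) U)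
      hcd hU.uniqueDiffOn hyU (n := k) le_rfl
    rw [iteratedFDerivWithin_of_isOpen k hU hyU] at h3
    refine h3.trans ?_
    rw [Finset.sum_mul]
    refine Finset.sum_le_sum (fun i hi => ?_)
    have hik : i ≤ k := by have := Finset.mem_range.mp hi; omega
    rw [iteratedFDerivWithin_of_isOpen i hU hyU, iteratedFDerivWithin_of_isOpen (k - i) hU hyU]
    rcases Nat.eq_zero_or_pos i with h0i | hipos
    · subst h0i
      have : ‖iteratedFDeriv ℝ 0 (fun x => χ x - χ y) y‖ = 0 := by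
        rw [norm_iteratedFDeriv_zero]; simp
      rw [this]
      simp only [mul_zero, zero_mul]
      positivity
    · have h4 : ‖iteratedFDeriv ℝ i (fun x => χ x - χ y) y‖ ≤ B := by
        have h5 : iteratedFDeriv ℝ i (fun x => χ x - χ y) y = iteratedFDeriv ℝ i χ y := by
          have h6 : ContDiffAt ℝ i χ y := (hχ.of_le (by exact_mod_cast hik)).contDiffAt
          have h7 : ContDiffAt ℝ i (fun _ : Fin d → ℝ => -χ y) y := contDiffAt_const
          have h8 : (fun x => χ x - χ y) = (fun x => χ x + (fun _ : Fin d → ℝ => -χ y) x) := by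
            funext x; ring
          rw [h8, fun_iteratedFDeriv_add_apply h6 h7,
            iteratedFDeriv_const_of_ne (by omega : i ≠ 0)]
          simp
        rw [h5]; exact hχB i hik y
      have h5 : ‖iteratedFDeriv ℝ (k - i) g y‖ ≤ (C0 * (1 / (J : ℝ))) * (d : ℝ) ^ (k - i) := by
        have h6 := hC0' (k - i) (by omega) g J hg' hkJ h0 y hy
        have h7 : PB (k - i) g y (C0 * (1 / (J : ℝ))) := by
          intro r
          refine (h6 r).trans ?_
          refine mul_le_mul_of_nonneg_left ?_ hC0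
          rw [show k - (k - i) = i by omega]
          calc (1 / (J : ℝ)) ^ i ≤ (1 / (J : ℝ)) ^ 1 :=
                pow_le_pow_of_le_one hJinv0 hJinv hipos
            _ = _ := pow_one _
        exact opnorm_of_PB (by positivity) h7
      calc (k.choose i : ℝ) * ‖iteratedFDeriv ℝ i (fun x => χ x - χ y) y‖ *
            ‖iteratedFDeriv ℝ (k - i) g y‖
          ≤ (k.choose i : ℝ) * B * ((C0 * (1 / (J : ℝ))) * (d : ℝ) ^ (k - i)) := by
            apply mul_le_mul _ h5 (norm_nonneg _) (by positivity)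
            exact mul_le_mul_of_nonneg_left h4 (by positivity)
        _ = (k.choose i : ℝ) * B * (C0 * (d : ℝ) ^ (k - i)) * (1 / (J : ℝ)) := by ring
  rw [h1, add_apply, smul_apply, smul_eq_mul]
  have h3 : |(iteratedFDeriv ℝ k (fun x => (χ x - χ y) * g x) y) (fun m => ev (r m))| ≤
      (∑ i ∈ Finset.range (k + 1), (k.choose i : ℝ) * B * (C0 * (d : ℝ) ^ (k - i))) *
        (1 / (J : ℝ)) := by
    have h4 := (iteratedFDeriv ℝ k (fun x => (χ x - χ y) * g x) y).le_opNorm (fun m => ev (r m))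
    rw [Real.norm_eq_abs] at h4
    refine h4.trans ?_
    have h5 : ∏ m : Fin k, ‖(ev (r m) : Fin d → ℝ)‖ ≤ 1 :=
      Finset.prod_le_one (fun m _ => norm_nonneg _) (fun m _ => norm_ev_le _)
    calc _ ≤ ‖iteratedFDeriv ℝ k (fun x => (χ x - χ y) * g x) y‖ * 1 :=
          mul_le_mul_of_nonneg_left h5 (norm_nonneg _)
      _ ≤ _ := by rw [mul_one]; exact h2
  have h4 : |χ y * (iteratedFDeriv ℝ k g y) (fun m => ev (r m))| ≤ 1 := by
    rw [abs_mul, abs_of_nonneg (hχ01 y).1]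
    calc χ y * |(iteratedFDeriv ℝ k g y) (fun m => ev (r m))| ≤ 1 * 1 :=
          mul_le_mul (hχ01 y).2 (hPB y hy r) (abs_nonneg _) zero_le_one
      _ = 1 := one_mul 1
  calc _ ≤ _ := abs_add_le _ _
    _ ≤ (∑ i ∈ Finset.range (k + 1), (k.choose i : ℝ) * B * (C0 * (d : ℝ) ^ (k - i))) *
        (1 / (J : ℝ)) + 1 := add_le_add h3 h4
    _ = _ := by ring

end Pool.Agent.Helper43.Quad
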