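import Mathlib
import Pool.Agent.Helper43.Quad.Product

set_option autoImplicit false

open Set MeasureTheory Topology

namespace Pool.Agent.Helper43.Quad

/-- the grid of mesh `1/J` in the closed unit cube -/
noncomputable def gridFin (d J : ℕ) : Finset (Fin d → ℝ) := by
  classical
  exact Finset.univ.image (fun m : Fin d → Fin (J + 1) => fun i => ((m i : ℕ) : ℝ) / J)

lemma gridFin_card (d J : ℕ) : (gridFin d J).card ≤ (J + 1) ^ d := by
  classical
  unfold gridFin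
  refine Finset.card_image_le.trans ?_
  simp

lemma gridFin_mem {d J : ℕ} (y : Fin d → ℝ) (h : ∀ i, ∃ m : ℕ, m ≤ J ∧ y i = (m : ℝ) / J) :
    y ∈ gridFin d J := by
  classical
  choose m hm hy using h
  unfold gridFin
  rw [Finset.mem_image]
  exact ⟨fun i => ⟨m i, Nat.lt_succ_of_le (hm i)⟩, Finset.mem_univ _, by funext i; simp [hy i]⟩

lemma gridFin_sub {d J : ℕ} (hJ : 0 < J) : ∀ p ∈ gridFin d J, p ∈ Icc (0 : Fin d → ℝ) 1 := by
  classical
  intro p hp
  unfold gridFin at hp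
  rw [Finset.mem_image] at hp
  obtain ⟨m, _, rfl⟩ := hp
  have hJ0 : (0 : ℝ) < J := by exact_mod_cast hJ
  constructor
  · intro i; simp only [Pi.zero_apply]; positivity
  · intro i
    simp only [Pi.one_apply]
    rw [div_le_one hJ0]
    exact_mod_cast Nat.lt_succ_iff.mp (m i).2

lemma cG_neg {d k : ℕ} {g : (Fin d → ℝ) → ℝ} (hg : cG k g) : cG k (fun x => -g x) := by
  obtain ⟨U, hU, hsub, hcd, hPB⟩ := hg
  refine ⟨U, hU, hsub, hcd.neg, fun y hy r => ?_⟩
  have h1 : iteratedFDeriv ℝ k (fun x => -g x) y = -iteratedFDeriv ℝ k g y := by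
    have := iteratedFDeriv_neg_apply (𝕜 := ℝ) (i := k) (f := g) (x := y)
    exact this
  rw [h1, neg_apply, abs_neg]
  exact hPB y hy r

lemma compare_one (d k : ℕ) (hk : 1 ≤ k) :
    ∃ C0 : ℝ, 0 ≤ C0 ∧ ∀ ε : ℝ, 0 < ε → ∃ C3 : ℝ, 0 ≤ C3 ∧
      ∀ (J : ℕ) (P : Finset (Fin d → ℝ)) (S : ℝ), k ≤ J →
      (∀ g : (Fin d → ℝ) → ℝ, cK k g → (∀ p ∈ P, g p = 0) → ∫ x, g x ≤ S) →
      ∀ g : (Fin d → ℝ) → ℝ, cG k g → gridZero J g → (∀ p ∈ P, p ∈ Icc (0 : Fin d → ℝ) 1 → g p = 0) →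
        ∫ y in Icc (0 : Fin d → ℝ) 1, g y ≤
          (1 + C3 * (1 / (J : ℝ))) * S + C0 * (1 / (J : ℝ)) ^ k * ε := by
  obtain ⟨C0, hC0, hC0'⟩ := cube_unif d k hk
  refine ⟨C0, hC0, ?_⟩
  intro ε hε
  obtain ⟨χ, B, hχ, hχs, hχ01, hχint, hB, hχB⟩ := exists_cutoff d k ε hε
  obtain ⟨C3, hC3, hC3'⟩ := product_PB d k hk χ B hχ hχ01 hB hχB
  refine ⟨C3, hC3, ?_⟩
  intro J P S hkJ hS g hg hgrid hgP
  have hg' := hg
  obtain ⟨U, hU, hsub, hcd, hPB⟩ := hg
  have hJ1 : (1 : ℝ) ≤ J := by exact_mod_cast (hk.trans hkJ)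
  set M : ℝ := 1 + C3 * (1 / (J : ℝ)) with hM
  have hM0 : 0 < M := by positivity
  -- χ vanishes outside of the closed cube
  have hχ0 : ∀ x, x ∉ Icc (0 : Fin d → ℝ) 1 → x ∉ tsupport χ := by
    intro x hx h
    have h2 := hχs h
    exact hx ⟨fun i => (h2 i).1.le, fun i => (h2 i).2.le⟩
  have hχev : ∀ x, x ∉ Icc (0 : Fin d → ℝ) 1 → ∀ᶠ y in 𝓝 x, χ y = 0 := fun x hx =>
    notMem_tsupport_iff_eventuallyEq.mp (hχ0 x hx)
  have hcdp : ContDiff ℝ k (fun x => χ x * g x) := by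
    rw [contDiff_iff_contDiffAt]
    intro x
    by_cases hx : x ∈ U
    · exact hχ.contDiffAt.mul (hcd.contDiffAt (hU.mem_nhds hx))
    · have h1 := hχev x (fun h => hx (hsub h))
      have h2 : (fun x => χ x * g x) =ᶠ[𝓝 x] fun _ => 0 := by
        filter_upwards [h1] with y hy
        rw [hy, zero_mul]
      exact contDiffAt_const.congr_of_eventuallyEq h2
  have hK : cK k (fun x => M⁻¹ • (χ x * g x)) := by
    refine ⟨hcdp.const_smul M⁻¹, ?_, ?_⟩
    · have h1 : tsupport (fun x => M⁻¹ • (χ x * g x)) ⊆ tsupport χ := by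
        apply closure_mono
        intro x hx
        rw [Function.mem_support] at hx ⊢
        intro h; apply hx; rw [h]; simp
      exact h1.trans hχs
    · intro x r
      rw [iteratedFDeriv_const_smul_apply' hcdp.contDiffAt, smul_apply, smul_eq_mul, abs_mul,
        abs_of_pos (inv_pos.mpr hM0)]
      by_cases hx : x ∈ Icc (0 : Fin d → ℝ) 1
      · have h1 := hC3' g J hg' hkJ hgrid x hx r
        rw [inv_mul_le_iff₀ hM0, mul_one]
        exact h1
      · have h1 := hχev x hx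
        have h2 : (fun x => χ x * g x) =ᶠ[𝓝 x] fun _ => 0 := by
          filter_upwards [h1] with y hy
          rw [hy, zero_mul]
        have h3 := (h2.iteratedFDeriv ℝ k).eq_of_nhds
        rw [h3]
        rw [iteratedFDeriv_const_of_ne (by omega : k ≠ 0)]
        simp
  have hKint := hS _ hK (by
    intro p hp
    by_cases hpI : p ∈ Icc (0 : Fin d → ℝ) 1
    · simp only [hgP p hp hpI, mul_zero, smul_zero]
    · have h1 := (hχev p hpI).self_of_nhds
      simp only [h1, zero_mul, smul_zero])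
  have hint1 : ∫ x, χ x * g x ≤ M * S := by
    have h1 : ∫ x, M⁻¹ • (χ x * g x) = M⁻¹ * ∫ x, χ x * g x := by
      rw [integral_smul, smul_eq_mul]
    rw [h1, inv_mul_le_iff₀ hM0] at hKint
    exact hKint
  have hint2 : ∫ x in Icc (0 : Fin d → ℝ) 1, χ x * g x = ∫ x, χ x * g x := by
    apply setIntegral_eq_integral_of_forall_compl_eq_zero
    intro x hx
    rw [(hχev x hx).self_of_nhds, zero_mul]
  have hgc : ContinuousOn g (Icc (0 : Fin d → ℝ) 1) := hcd.continuousOn.mono hsub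
  have hI1 : IntegrableOn (fun x => χ x * g x) (Icc (0 : Fin d → ℝ) 1) :=
    (hcdp.continuous.continuousOn).integrableOn_compact isCompact_Icc
  have hI2 : IntegrableOn (fun x => (1 - χ x) * g x) (Icc (0 : Fin d → ℝ) 1) :=
    (((continuous_const.sub hχ.continuous).continuousOn).mul hgc).integrableOn_compact isCompact_Icc
  have hI3 : IntegrableOn (fun x => (1 - χ x)) (Icc (0 : Fin d → ℝ) 1) :=
    ((continuous_const.sub hχ.continuous).continuousOn).integrableOn_compact isCompact_Icc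
  have hsplit : ∫ y in Icc (0 : Fin d → ℝ) 1, g y =
      (∫ y in Icc (0 : Fin d → ℝ) 1, χ y * g y) +
        ∫ y in Icc (0 : Fin d → ℝ) 1, (1 - χ y) * g y := by
    rw [← integral_add hI1 hI2]
    apply setIntegral_congr_fun measurableSet_Icc
    intro y _
    ring
  have hsmall : ∫ y in Icc (0 : Fin d → ℝ) 1, (1 - χ y) * g y ≤ C0 * (1 / (J : ℝ)) ^ k * ε := by
    have h1 : ∫ y in Icc (0 : Fin d → ℝ) 1, (1 - χ y) * g y ≤
        ∫ y in Icc (0 : Fin d → ℝ) 1, (C0 * (1 / (J : ℝ)) ^ k) * (1 - χ y) := by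
      apply setIntegral_mono_on hI2 (hI3.const_mul _) measurableSet_Icc
      intro y hy
      have h2 := hC0' 0 (by omega) g J hg' hkJ hgrid y hy (fun x => x.elim0)
      rw [iteratedFDeriv_zero_apply, Nat.sub_zero] at h2
      have h3 : 0 ≤ 1 - χ y := by linarith [(hχ01 y).2]
      rw [mul_comm]
      exact mul_le_mul_of_nonneg_right ((le_abs_self _).trans h2) h3
    refine h1.trans ?_
    rw [integral_const_mul]
    exact mul_le_mul_of_nonneg_left hχint (by positivity)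
  rw [hsplit, hint2]
  exact add_le_add hint1 hsmall

/-- the exponent `k/d` -/
noncomputable def qq (d k : ℕ) : ℝ := (k : ℝ) / d

/-- for arbitrarily large `m` there are `m` points for which compactly supported test functions
vanishing at these points have integral at most `c * m^(-k/d)` -/
def Thin (d k : ℕ) (c : ℝ) : Prop :=
  ∀ m0 : ℕ, ∃ m ≥ m0, ∃ P : Finset (Fin d → ℝ), P.card ≤ m ∧
    ∀ g : (Fin d → ℝ) → ℝ, cK k g → (∀ p ∈ P, g p = 0) → ∫ x, g x ≤ c * (m : ℝ) ^ (-qq d k)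

/-- `m` points in the closed cube have worst case error at most `e` on `cG` -/
def Good (d k m : ℕ) (e : ℝ) : Prop :=
  ∃ P : Finset (Fin d → ℝ), (∀ p ∈ P, p ∈ Icc (0 : Fin d → ℝ) 1) ∧ P.card ≤ m ∧
    ∀ g : (Fin d → ℝ) → ℝ, cG k g → (∀ p ∈ P, g p = 0) → |∫ y in Icc (0 : Fin d → ℝ) 1, g y| ≤ e

lemma good_of_thin (d k : ℕ) (hd : 1 ≤ d) (hk : 1 ≤ k) (c c' : ℝ) (hc : 0 ≤ c) (hcc : c < c')
    (hT : Thin d k c) :
    ∃ (m : ℕ) (e : ℝ), 1 ≤ m ∧ 0 ≤ e ∧ Good d k m e ∧ (m : ℝ) ^ (qq d k) * e < c' := by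
  classical
  have hd0 : (0 : ℝ) < d := by exact_mod_cast hd
  have hk0 : (0 : ℝ) < k := by exact_mod_cast hk
  have hq : 0 < qq d k := div_pos hk0 hd0
  obtain ⟨C0, hC0, hcomp⟩ := compare_one d k hk
  -- choice of ε
  obtain ⟨ε, hε, hεc⟩ : ∃ ε : ℝ, 0 < ε ∧ (1 + ε) ^ (qq d k) * ((1 + ε) * c + ε) < c' := by
    have hcont : ContinuousAt (fun e : ℝ => (1 + e) ^ (qq d k) * ((1 + e) * c + e)) 0 := by
      apply ContinuousAt.mul
      · apply ContinuousAt.rpow_const (by fun_prop)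
        left; norm_num
      · fun_prop
    have hval : (1 + (0 : ℝ)) ^ (qq d k) * ((1 + 0) * c + 0) < c' := by
      simp [hcc]
    have hev := hcont.eventually_lt (continuousAt_const (y := c')) hval
    obtain ⟨δ, hδ, hball⟩ := Metric.eventually_nhds_iff.mp hev
    refine ⟨δ / 2, by positivity, ?_⟩
    apply hball
    rw [Real.dist_eq, sub_zero, abs_of_pos (by positivity)]
    linarith
  set W : ℝ := C0 * 4 ^ k * ε ^ (-qq d k) with hW
  have hW0 : 0 ≤ W := by positivity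
  set ε2 : ℝ := ε / (W + 1) with hε2
  have hε20 : 0 < ε2 := by positivity
  have hWε2 : W * ε2 ≤ ε := by
    rw [hε2, mul_div_assoc', div_le_iff₀ (by positivity)]
    nlinarith
  obtain ⟨C3, hC3, hcomp⟩ := hcomp ε2 hε20
  set R : ℝ := 4 + 4 * k + 4 * C3 / ε with hR
  have hR4 : 4 ≤ R := by rw [hR]; have : 0 ≤ 4 * C3 / ε := by positivity
                         linarith
  have hRk : 4 * (k : ℝ) ≤ R := by rw [hR]; have : 0 ≤ 4 * C3 / ε := by positivity
                                   linarith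
  have hRC : 4 * C3 / ε ≤ R := by rw [hR]; linarith
  obtain ⟨m, hm, P, hPc, hP⟩ := hT (⌈R ^ d / ε⌉₊ + 1)
  have hm1 : R ^ d / ε ≤ m := by
    have h1 := Nat.le_ceil (R ^ d / ε)
    have h2 : ((⌈R ^ d / ε⌉₊ + 1 : ℕ) : ℝ) ≤ m := by exact_mod_cast hm
    push_cast at h2
    linarith
  have hmpos : 0 < m := by omega
  have hm0 : (0 : ℝ) < m := by exact_mod_cast hmpos
  set s : ℝ := (ε * m) ^ (1 / (d : ℝ)) with hs
  have hεm : 0 < ε * m := by positivity
  have hs0 : 0 < s := Real.rpow_pos_of_pos hεm _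
  have hsd : s ^ d = ε * m := by
    rw [hs, ← Real.rpow_natCast, ← Real.rpow_mul hεm.le, one_div, inv_mul_cancel₀ hd0.ne',
      Real.rpow_one]
  have hsR : R ≤ s := by
    have h1 : R ^ d ≤ s ^ d := by
      rw [hsd, mul_comm]
      exact (div_le_iff₀ hε).mp hm1
    exact le_of_pow_le_pow_left₀ (by omega : d ≠ 0) hs0.le h1
  set J : ℕ := ⌊s / 2⌋₊ with hJ
  have hJle : (J : ℝ) ≤ s / 2 := Nat.floor_le (by positivity)
  have hJge : s / 4 ≤ J := by
    have := (Nat.lt_floor_add_one (s / 2)).le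
    rw [← hJ] at this
    linarith
  have hkJ : k ≤ J := by
    have : (k : ℝ) ≤ J := by linarith
    exact_mod_cast this
  have hJpos : 0 < J := by omega
  have hJ0 : (0 : ℝ) < J := by exact_mod_cast hJpos
  have hgridc : (((J + 1) ^ d : ℕ) : ℝ) ≤ ε * m := by
    push_cast
    rw [← hsd]
    apply pow_le_pow_left₀ (by positivity)
    linarith
  have hC3J : C3 * (1 / (J : ℝ)) ≤ ε := by
    rw [mul_one_div, div_le_iff₀ hJ0]
    have h1 : 4 * C3 ≤ ε * s := by
      have := (div_le_iff₀ hε).mp (hRC.trans hsR)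
      linarith
    nlinarith
  have hJk : (1 / (J : ℝ)) ^ k ≤ 4 ^ k * ε ^ (-qq d k) * (m : ℝ) ^ (-qq d k) := by
    have h1 : (1 / (J : ℝ)) ≤ 4 / s := by
      rw [div_le_div_iff₀ hJ0 hs0]; linarith
    have h2 : (1 / (J : ℝ)) ^ k ≤ (4 / s) ^ k := pow_le_pow_left₀ (by positivity) h1 k
    refine h2.trans (le_of_eq ?_)
    rw [div_pow, mul_assoc, ← Real.mul_rpow hε.le hm0.le, Real.rpow_neg hεm.le, div_eq_mul_inv]
    congr 2
    rw [hs, ← Real.rpow_natCast, ← Real.rpow_mul hεm.le]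
    congr 1
    unfold qq
    ring
  set mq : ℝ := (m : ℝ) ^ (-qq d k) with hmq
  have hmq0 : 0 < mq := Real.rpow_pos_of_pos hm0 _
  have hmqq : (m : ℝ) ^ (qq d k) * mq = 1 := by
    rw [hmq, ← Real.rpow_add hm0]; simp
  refine ⟨m + (J + 1) ^ d, (1 + C3 * (1 / (J : ℝ))) * (c * mq) + C0 * (1 / (J : ℝ)) ^ k * ε2,
    by omega, by positivity, ?_, ?_⟩
  · refine ⟨P.filter (fun p => p ∈ Icc (0 : Fin d → ℝ) 1) ∪ gridFin d J, ?_, ?_, ?_⟩
    · intro p hp
      rw [Finset.mem_union, Finset.mem_filter] at hp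
      rcases hp with hp | hp
      · exact hp.2
      · exact gridFin_sub hJpos p hp
    · refine (Finset.card_union_le _ _).trans ?_
      exact add_le_add ((Finset.card_filter_le _ _).trans hPc) (gridFin_card d J)
    · intro g hg hgP
      have hgrid : gridZero J g := fun y hy => hgP y (Finset.mem_union_right _ (gridFin_mem y hy))
      have hgP' : ∀ p ∈ P, p ∈ Icc (0 : Fin d → ℝ) 1 → g p = 0 := fun p hp hpI =>
        hgP p (Finset.mem_union_left _ (Finset.mem_filter.mpr ⟨hp, hpI⟩))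
      have h1 := hcomp J P (c * mq) hkJ hP g hg hgrid hgP'
      have h2 := hcomp J P (c * mq) hkJ hP (fun x => -g x) (cG_neg hg)
        (fun y hy => by simp only [hgrid y hy, neg_zero])
        (fun p hp hpI => by simp only [hgP' p hp hpI, neg_zero])
      rw [integral_neg] at h2
      rw [abs_le]
      constructor
      · linarith
      · exact h1
  · have hm1' : (((m + (J + 1) ^ d : ℕ)) : ℝ) ≤ m * (1 + ε) := by
      push_cast at hgridc ⊢
      linarith
    have h1 : (((m + (J + 1) ^ d : ℕ)) : ℝ) ^ (qq d k) ≤ (m : ℝ) ^ (qq d k) * (1 + ε) ^ (qq d k) := by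
      rw [← Real.mul_rpow hm0.le (by positivity)]
      exact Real.rpow_le_rpow (by positivity) hm1' hq.le
    have h2 : (1 + C3 * (1 / (J : ℝ))) * (c * mq) + C0 * (1 / (J : ℝ)) ^ k * ε2 ≤
        ((1 + ε) * c + ε) * mq := by
      have h3 : (1 + C3 * (1 / (J : ℝ))) * (c * mq) ≤ (1 + ε) * (c * mq) := by
        apply mul_le_mul_of_nonneg_right _ (by positivity)
        linarith
      have h4 : C0 * (1 / (J : ℝ)) ^ k * ε2 ≤ ε * mq := by
        calc C0 * (1 / (J : ℝ)) ^ k * ε2 ≤ C0 * (4 ^ k * ε ^ (-qq d k) * mq) * ε2 := by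
              apply mul_le_mul_of_nonneg_right _ hε20.le
              exact mul_le_mul_of_nonneg_left hJk hC0
          _ = (W * ε2) * mq := by rw [hW]; ring
          _ ≤ ε * mq := mul_le_mul_of_nonneg_right hWε2 hmq0.le
      nlinarith
    have h5 : 0 ≤ ((1 + ε) * c + ε) * mq := by positivity
    calc (((m + (J + 1) ^ d : ℕ)) : ℝ) ^ (qq d k) *
          ((1 + C3 * (1 / (J : ℝ))) * (c * mq) + C0 * (1 / (J : ℝ)) ^ k * ε2)
        ≤ ((m : ℝ) ^ (qq d k) * (1 + ε) ^ (qq d k)) * (((1 + ε) * c + ε) * mq) := by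
          apply mul_le_mul h1 h2 (by positivity) (by positivity)
      _ = ((m : ℝ) ^ (qq d k) * mq) * ((1 + ε) ^ (qq d k) * ((1 + ε) * c + ε)) := by ring
      _ = (1 + ε) ^ (qq d k) * ((1 + ε) * c + ε) := by rw [hmqq, one_mul]
      _ < c' := hεc

end Pool.Agent.Helper43.Quad
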