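import Mathlib
import Pool.Agent.Helper43.Quad.Compare

set_option autoImplicit false

open Set MeasureTheory Topology

namespace Pool.Agent.Helper43.Quad

/-- closed cell of mesh `1/N` -/
def ccell {d : ℕ} (N : ℕ) (z : Fin d → ℤ) : Set (Fin d → ℝ) :=
  {x | ∀ i, (z i : ℝ) ≤ N * x i ∧ N * x i ≤ z i + 1}

/-- half open cell of mesh `1/N` -/
def hcell {d : ℕ} (N : ℕ) (z : Fin d → ℤ) : Set (Fin d → ℝ) := {x | idx N x = z}

lemma hcell_sub {d : ℕ} (N : ℕ) (z : Fin d → ℤ) : hcell N z ⊆ ccell N z := by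
  intro x hx i
  have h1 : idx N x i = z i := congrFun hx i
  unfold idx at h1
  rw [Int.floor_eq_iff] at h1
  exact ⟨h1.1, h1.2.le⟩

lemma hcell_eq {d N : ℕ} (hN : 0 < N) (z : Fin d → ℤ) : hcell N z =
    Set.pi Set.univ (fun i => Ico ((z i : ℝ) / N) (((z i : ℝ) + 1) / N)) := by
  have hN0 : (0 : ℝ) < N := by exact_mod_cast hN
  ext x
  simp only [hcell, Set.mem_ofPred_eq, Set.mem_pi, Set.mem_univ, true_implies, mem_Ico]
  rw [funext_iff]
  refine forall_congr' (fun i => ?_)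
  unfold idx
  rw [Int.floor_eq_iff, div_le_iff₀ hN0, lt_div_iff₀ hN0, mul_comm]

lemma hcell_meas {d N : ℕ} (hN : 0 < N) (z : Fin d → ℤ) : MeasurableSet (hcell N z) := by
  rw [hcell_eq hN]
  exact MeasurableSet.univ_pi (fun i => measurableSet_Ico)

lemma hcell_volume {d N : ℕ} (hN : 0 < N) (z : Fin d → ℤ) :
    volume (hcell N z) = ENNReal.ofReal ((1 / (N : ℝ)) ^ d) := by
  have hN0 : (0 : ℝ) < N := by exact_mod_cast hN
  rw [hcell_eq hN, Real.volume_pi_Ico]
  have : ∀ i : Fin d, ENNReal.ofReal (((z i : ℝ) + 1) / N - (z i : ℝ) / N) =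
      ENNReal.ofReal (1 / N) := by
    intro i; congr 1; ring
  rw [Finset.prod_congr rfl (fun i _ => this i), Finset.prod_const, Finset.card_univ,
    Fintype.card_fin, ENNReal.ofReal_pow (by positivity)]

lemma hcell_disj {d : ℕ} (N : ℕ) {z z' : Fin d → ℤ} (h : z ≠ z') :
    Disjoint (hcell N z) (hcell N z') := by
  rw [Set.disjoint_left]
  intro x hx hx'
  exact h (hx.symm.trans hx')

lemma finite_inner {d N : ℕ} (U : Set (Fin d → ℝ)) (hb : Bornology.IsBounded U) (hN : 0 < N) :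
    {z : Fin d → ℤ | ccell N z ⊆ U}.Finite := by
  have hN0 : (0 : ℝ) < N := by exact_mod_cast hN
  obtain ⟨R, hR⟩ := hb.subset_closedBall 0
  have hsub : {z : Fin d → ℤ | ccell N z ⊆ U} ⊆
      Set.Icc (fun _ => -⌈(N : ℝ) * R⌉) (fun _ => ⌈(N : ℝ) * R⌉) := by
    intro z hz
    have hzU : (fun i => (z i : ℝ) / N) ∈ U := by
      apply hz
      intro i
      have : (N : ℝ) * ((z i : ℝ) / N) = z i := by field_simp
      rw [this]
      exact ⟨le_refl _, by linarith⟩
    have h1 := hR hzU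
    rw [mem_closedBall_zero_iff] at h1
    have h2 : ∀ i, |(z i : ℝ)| ≤ N * R := by
      intro i
      have h3 := (norm_le_pi_norm (fun i => (z i : ℝ) / N) i).trans h1
      rw [Real.norm_eq_abs, abs_div, abs_of_pos hN0, div_le_iff₀ hN0] at h3
      linarith
    constructor
    · intro i
      have h3 := (abs_le.mp (h2 i)).1
      have h4 := Int.le_ceil ((N : ℝ) * R)
      have : (-(⌈(N : ℝ) * R⌉ : ℤ) : ℝ) ≤ (z i : ℝ) := by linarith
      exact_mod_cast this
    · intro i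
      have h3 := (abs_le.mp (h2 i)).2
      have h4 := Int.le_ceil ((N : ℝ) * R)
      have : (z i : ℝ) ≤ ((⌈(N : ℝ) * R⌉ : ℤ) : ℝ) := by linarith
      exact_mod_cast this
  exact (Set.finite_Icc _ _).subset hsub

/-- the finite set of the inner cells -/
noncomputable def inner {d : ℕ} (N : ℕ) (U : Set (Fin d → ℝ)) : Finset (Fin d → ℤ) := by
  classical
  exact if h : {z : Fin d → ℤ | ccell N z ⊆ U}.Finite then h.toFinset else ∅

lemma mem_inner {d N : ℕ} {U : Set (Fin d → ℝ)} (hb : Bornology.IsBounded U) (hN : 0 < N)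
    (z : Fin d → ℤ) : z ∈ inner N U ↔ ccell N z ⊆ U := by
  have h := finite_inner U hb hN
  unfold inner
  rw [dif_pos h]
  simp

lemma union_volume {d N : ℕ} (hN : 0 < N) (Z : Finset (Fin d → ℤ)) :
    volume (⋃ z ∈ Z, hcell N z) = ENNReal.ofReal ((Z.card : ℝ) * (1 / (N : ℝ)) ^ d) := by
  rw [measure_biUnion_finset (fun z _ z' _ h => hcell_disj N h) (fun z _ => hcell_meas hN z)]
  simp only [hcell_volume hN, Finset.sum_const, nsmul_eq_mul]
  rw [ENNReal.ofReal_mul (by positivity), ENNReal.ofReal_natCast]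

lemma inner_le {d N : ℕ} (hN : 0 < N) (U : Set (Fin d → ℝ)) (hb : Bornology.IsBounded U)
    (hv : volume U = 1) : ((inner N U).card : ℝ) * (1 / (N : ℝ)) ^ d ≤ 1 := by
  have h1 : volume (⋃ z ∈ inner N U, hcell N z) ≤ volume U := by
    apply measure_mono
    intro x hx
    simp only [mem_iUnion] at hx
    obtain ⟨z, hz, hx⟩ := hx
    exact (mem_inner hb hN z).mp hz (hcell_sub N z hx)
  rw [union_volume hN, hv, ← ENNReal.ofReal_one, ENNReal.ofReal_le_ofReal_iff zero_le_one] at h1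
  exact h1

lemma inner_ge {d : ℕ} (U : Set (Fin d → ℝ)) (hU : IsOpen U)
    (hb : Bornology.IsBounded U) (hv : volume U = 1) (ε : ℝ) (hε : 0 < ε) :
    ∃ N0 : ℕ, 0 < N0 ∧ ∀ N ≥ N0, 1 - ε ≤ ((inner N U).card : ℝ) * (1 / (N : ℝ)) ^ d := by
  have hr : ENNReal.ofReal (1 - ε) < volume U := by
    rw [hv, ← ENNReal.ofReal_one, ENNReal.ofReal_lt_ofReal_iff zero_lt_one]
    linarith
  obtain ⟨K, hKU, hKc, hKv⟩ := hU.exists_lt_isCompact hr
  obtain ⟨δ, hδ, hthick⟩ := hKc.exists_thickening_subset_open hU hKU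
  refine ⟨⌈2 / δ⌉₊ + 1, by omega, ?_⟩
  intro N hN
  have hNpos : 0 < N := by omega
  have hN0 : (0 : ℝ) < N := by exact_mod_cast hNpos
  have hNδ : 1 / (N : ℝ) < δ := by
    have h1 := Nat.le_ceil (2 / δ)
    have h2 : ((⌈2 / δ⌉₊ + 1 : ℕ) : ℝ) ≤ N := by exact_mod_cast hN
    push_cast at h2
    have h3 : 2 / δ < N := by linarith
    rw [div_lt_iff₀ hδ] at h3
    rw [div_lt_iff₀ hN0]
    nlinarith
  have hcov : K ⊆ ⋃ z ∈ inner N U, hcell N z := by
    intro x hx
    simp only [mem_iUnion]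
    refine ⟨idx N x, ?_, rfl⟩
    rw [mem_inner hb hNpos]
    intro y hy
    apply hthick
    rw [Metric.mem_thickening_iff]
    refine ⟨x, hx, ?_⟩
    have hxc := hcell_sub N (idx N x) (rfl : idx N x = idx N x)
    have h1 : dist y x ≤ 1 / N := by
      rw [dist_pi_le_iff (by positivity)]
      intro i
      have h2 := hy i
      have h3 := hxc i
      rw [Real.dist_eq, abs_le]
      constructor
      · have : (N : ℝ) * (x i - y i) ≤ 1 := by nlinarith
        have h4 : x i - y i ≤ 1 / N := by rw [le_div_iff₀ hN0]; linarith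
        linarith
      · have : (N : ℝ) * (y i - x i) ≤ 1 := by nlinarith
        rw [le_div_iff₀ hN0]; linarith
    exact lt_of_le_of_lt h1 hNδ
  have h1 := hKv.trans_le (measure_mono hcov)
  rw [union_volume hNpos] at h1
  have h2 := h1.le
  by_cases h3 : 1 - ε ≤ 0
  · exact h3.trans (by positivity)
  · push Not at h3
    have h4 : 0 ≤ ((inner N U).card : ℝ) * (1 / (N : ℝ)) ^ d := by positivity
    rwa [ENNReal.ofReal_le_ofReal_iff h4] at h2

end Pool.Agent.Helper43.Quad
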