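import Mathlib
import Pool.Agent.Helper43.Quad.Cells

set_option autoImplicit false

open Set MeasureTheory Topology

namespace Pool.Agent.Helper43.Quad

/-- the class `F^k_d(D)` -/
def cF {d : ℕ} (k : ℕ) (D : Set (Fin d → ℝ)) (f : (Fin d → ℝ) → ℝ) : Prop :=
  ContDiffOn ℝ k f (interior D) ∧ (∀ x ∈ D, |f x| ≤ 1) ∧
    ∀ j ≤ k, ∀ x ∈ interior D, PB j f x 1

lemma rpow_tangent (q s s0 : ℝ) (hq : 0 ≤ q) (hs : 0 < s) (hs0 : 0 < s0) :
    s0 ^ (-q) - q * s0 ^ (-q) * (s / s0 - 1) ≤ s ^ (-q) := by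
  have hu : 0 < s / s0 := div_pos hs hs0
  have h1 : s ^ (-q) = s0 ^ (-q) * (s / s0) ^ (-q) := by
    rw [← Real.mul_rpow hs0.le hu.le]
    congr 1; field_simp
  have h2 : 1 - q * (s / s0 - 1) ≤ (s / s0) ^ (-q) := by
    rw [Real.rpow_def_of_pos hu]
    have h3 := Real.add_one_le_exp (Real.log (s / s0) * -q)
    have h4 := Real.log_le_sub_one_of_pos hu
    nlinarith
  rw [h1]
  have h3 : 0 < s0 ^ (-q) := Real.rpow_pos_of_pos hs0 _
  nlinarith

lemma jensen {ι : Type*} (Z : Finset ι) (hZ : Z.Nonempty) (q : ℝ) (hq : 0 ≤ q) (s : ι → ℝ)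
    (hs : ∀ z ∈ Z, 0 < s z) (s0 : ℝ) (hs0 : 0 < s0) (hsum : ∑ z ∈ Z, s z ≤ Z.card * s0) :
    (Z.card : ℝ) * s0 ^ (-q) ≤ ∑ z ∈ Z, (s z) ^ (-q) := by
  have h1 : ∑ z ∈ Z, (s0 ^ (-q) - q * s0 ^ (-q) * (s z / s0 - 1)) ≤ ∑ z ∈ Z, (s z) ^ (-q) :=
    Finset.sum_le_sum (fun z hz => rpow_tangent q (s z) s0 hq (hs z hz) hs0)
  refine le_trans ?_ h1
  rw [Finset.sum_sub_distrib, ← Finset.mul_sum, Finset.sum_sub_distrib, ← Finset.sum_div]
  simp only [Finset.sum_const, nsmul_eq_mul, mul_one]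
  have h3 : 0 < s0 ^ (-q) := Real.rpow_pos_of_pos hs0 _
  have h4 : (∑ z ∈ Z, s z) / s0 - Z.card ≤ 0 := by
    rw [sub_nonpos, div_le_iff₀ hs0]; exact hsum
  have h5 : 0 ≤ q * s0 ^ (-q) := by positivity
  nlinarith

lemma fiber_sum {d : ℕ} (N n : ℕ) (Z : Finset (Fin d → ℤ)) (x : Fin n → (Fin d → ℝ)) :
    ∑ z ∈ Z, ((Finset.univ.filter (fun i => idx N (x i) = z)).card : ℝ) ≤ n := by
  classical
  have h1 : ∑ z ∈ Z, (Finset.univ.filter (fun i => idx N (x i) = z)).card ≤ n := by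
    rw [← Finset.card_biUnion]
    · calc _ ≤ (Finset.univ : Finset (Fin n)).card := Finset.card_le_card (Finset.subset_univ _)
        _ = n := by simp
    · intro z _ z' _ hzz'
      rw [Function.onFun, Finset.disjoint_left]
      intro i hi hi'
      simp only [Finset.mem_filter, Finset.mem_univ, true_and] at hi hi'
      exact hzz' (hi.symm.trans hi')
  exact_mod_cast h1

/-- The fooling function. -/
lemma lower_fool (d k : ℕ) (hd : 1 ≤ d) (D : Set (Fin d → ℝ)) (N : ℕ) (hN : 0 < N)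
    (Z : Finset (Fin d → ℤ)) (hZ : ∀ z ∈ Z, ccell N z ⊆ interior D) (hZne : Z.Nonempty)
    (a b : ℝ) (ha : 0 ≤ a) (hb : 0 < b)
    (H : ∀ (m : ℕ) (P : Finset (Fin d → ℝ)), P.card ≤ m → ∃ g : (Fin d → ℝ) → ℝ, cK k g ∧
      (∀ p ∈ P, g p = 0) ∧ a * ((m : ℝ) + b) ^ (-qq d k) ≤ ∫ x, g x)
    (n : ℕ) (x : Fin n → (Fin d → ℝ)) :
    ∃ f : (Fin d → ℝ) → ℝ, cF k D f ∧ (∀ i, f (x i) = 0) ∧
      (1 / (N : ℝ)) ^ (k + d) * ((Z.card : ℝ) * (a * ((n : ℝ) / Z.card + b) ^ (-qq d k))) ≤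
        ∫ y in D, f y := by
  classical
  have hq : 0 ≤ qq d k := by unfold qq; positivity
  let nz : (Fin d → ℤ) → ℕ := fun z => (Finset.univ.filter (fun i => idx N (x i) = z)).card
  let Pz : (Fin d → ℤ) → Finset (Fin d → ℝ) := fun z =>
    (Finset.univ.filter (fun i => idx N (x i) = z)).image
      (fun i => (fun l => -(z l : ℝ)) + (N : ℝ) • x i)
  have hPz : ∀ z, (Pz z).card ≤ nz z := fun z => Finset.card_image_le
  choose g hgK hgP hgint using fun z => H (nz z) (Pz z) (hPz z)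
  refine ⟨asm k N Z g, ⟨(asm_contDiff Z g hgK).contDiffOn, ?_, ?_⟩, ?_, ?_⟩
  · intro y _
    have h1 := asm_PB (by omega) hN Z g hgK (Nat.zero_le k) y (fun x => x.elim0)
    rwa [iteratedFDeriv_zero_apply] at h1
  · intro j hj y _
    exact asm_PB (by omega) hN Z g hgK hj y
  · intro i
    rw [asm_value hN Z g hgK]
    by_cases h : idx N (x i) ∈ Z
    · rw [if_pos h, hgP (idx N (x i)), mul_zero]
      simp only [Pz, Finset.mem_image, Finset.mem_filter, Finset.mem_univ, true_and]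
      exact ⟨i, rfl, rfl⟩
    · rw [if_neg h]
  · have hint : ∫ y in D, asm k N Z g y = ∫ y, asm k N Z g y := by
      apply setIntegral_eq_integral_of_forall_compl_eq_zero
      intro y hy
      rw [asm_value hN Z g hgK]
      by_cases h : idx N y ∈ Z
      · exfalso
        exact hy (interior_subset (hZ _ h (hcell_sub N _ (rfl : idx N y = idx N y))))
      · rw [if_neg h]
    rw [hint, asm_integral hN Z g hgK]
    apply mul_le_mul_of_nonneg_left _ (by positivity)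
    have hcard : (0 : ℝ) < Z.card := by exact_mod_cast hZne.card_pos
    have h1 : ∑ z ∈ Z, a * (((nz z : ℕ) : ℝ) + b) ^ (-qq d k) ≤ ∑ z ∈ Z, ∫ x, g z x :=
      Finset.sum_le_sum (fun z _ => hgint z)
    refine le_trans ?_ h1
    rw [← Finset.mul_sum]
    have h2 : (Z.card : ℝ) * ((n : ℝ) / Z.card + b) ^ (-qq d k) ≤
        ∑ z ∈ Z, (((nz z : ℕ) : ℝ) + b) ^ (-qq d k) := by
      apply jensen Z hZne (qq d k) hq
      · intro z _; positivity
      · positivity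
      · rw [Finset.sum_add_distrib, Finset.sum_const, nsmul_eq_mul, mul_add]
        have h3 := fiber_sum N n Z x
        have h4 : (Z.card : ℝ) * ((n : ℝ) / Z.card) = n := by field_simp
        rw [h4]
        exact add_le_add h3 (le_refl _)
    calc (Z.card : ℝ) * (a * ((n : ℝ) / Z.card + b) ^ (-qq d k))
        = a * ((Z.card : ℝ) * ((n : ℝ) / Z.card + b) ^ (-qq d k)) := by ring
      _ ≤ a * ∑ z ∈ Z, (((nz z : ℕ) : ℝ) + b) ^ (-qq d k) := mul_le_mul_of_nonneg_left h2 ha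

end Pool.Agent.Helper43.Quad
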