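import Mathlib
import Pool.Agent.Helper43.Quad.Lower

set_option autoImplicit false

open Set MeasureTheory Topology

namespace Pool.Agent.Helper43.Quad

/-- affine chart of a cell -/
noncomputable def chart {d : ℕ} (N : ℕ) (z : Fin d → ℤ) (y : Fin d → ℝ) : Fin d → ℝ :=
  (fun i => (1 / (N : ℝ)) * (z i : ℝ)) + (1 / (N : ℝ)) • y

lemma chart_mem {d N : ℕ} (hN : 0 < N) (z : Fin d → ℤ) (y : Fin d → ℝ)
    (hy : y ∈ Icc (0 : Fin d → ℝ) 1) : chart N z y ∈ ccell N z := by
  have hN0 : (0 : ℝ) < N := by exact_mod_cast hN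
  intro i
  have h1 : (N : ℝ) * chart N z y i = z i + y i := by
    simp only [chart, Pi.add_apply, Pi.smul_apply, smul_eq_mul]
    field_simp
  have h2 : 0 ≤ y i := hy.1 i
  have h3 : y i ≤ 1 := hy.2 i
  rw [h1]
  constructor <;> linarith

lemma chart_cont {d : ℕ} (N : ℕ) (z : Fin d → ℤ) : Continuous (chart N z) := by
  unfold chart
  fun_prop

lemma cG_chart {d k N : ℕ} (hN : 0 < N) (z : Fin d → ℤ) {U : Set (Fin d → ℝ)} (hU : IsOpen U)
    (hz : ccell N z ⊆ U) {f : (Fin d → ℝ) → ℝ} (hf : ContDiffOn ℝ k f U)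
    (hPB : ∀ x ∈ U, PB k f x 1) : cG k (fun y => (N : ℝ) ^ k • f (chart N z y)) := by
  have hN0 : (N : ℝ) ≠ 0 := by exact_mod_cast hN.ne'
  have hN1 : 1 / (N : ℝ) ≠ 0 := by positivity
  have hcc : ContDiff ℝ k (chart N z : (Fin d → ℝ) → (Fin d → ℝ)) := by
    unfold chart
    exact contDiff_const.add (contDiff_id.const_smul _)
  have hcd : ContDiffOn ℝ k (fun y => f (chart N z y)) (chart N z ⁻¹' U) :=
    hf.comp hcc.contDiffOn (fun y hy => hy)
  refine ⟨chart N z ⁻¹' U, hU.preimage (chart_cont N z), fun y hy => hz (chart_mem hN z y hy),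
    hcd.const_smul _, ?_⟩
  intro y hy r
  have hyU : y ∈ chart N z ⁻¹' U := hz (chart_mem hN z y hy)
  have h1 : ContDiffAt ℝ k (fun y => f (chart N z y)) y :=
    hcd.contDiffAt ((hU.preimage (chart_cont N z)).mem_nhds hyU)
  rw [iteratedFDeriv_const_smul_apply' h1, smul_apply, smul_eq_mul]
  have h2 := iter_affine f (fun i => (1 / (N : ℝ)) * (z i : ℝ)) (1 / (N : ℝ)) hN1 k y
    (fun m => ev (r m))
  have h3 : iteratedFDeriv ℝ k (fun y => f (chart N z y)) y (fun m => ev (r m)) =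
      (1 / (N : ℝ)) ^ k * iteratedFDeriv ℝ k f (chart N z y) (fun m => ev (r m)) := h2
  rw [h3, ← mul_assoc, ← mul_pow, mul_one_div, div_self hN0, one_pow, one_mul]
  exact hPB _ hyU r

lemma hcell_integral {d k N : ℕ} (hN : 0 < N) (z : Fin d → ℤ) (f : (Fin d → ℝ) → ℝ) :
    ∫ x in hcell N z, f x =
      (1 / (N : ℝ)) ^ (k + d) * ∫ y in Icc (0 : Fin d → ℝ) 1, (N : ℝ) ^ k • f (chart N z y) := by
  have hN0 : (N : ℝ) ≠ 0 := by exact_mod_cast hN.ne'
  have hNp : (0 : ℝ) < N := by exact_mod_cast hN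
  have hcube : (fun y : Fin d → ℝ => y) ⁻¹' (Set.pi Set.univ (fun _ : Fin d => Ico (0 : ℝ) 1)) =
      Set.pi Set.univ (fun _ : Fin d => Ico (0 : ℝ) 1) := rfl
  have hmC : MeasurableSet (Set.pi Set.univ (fun _ : Fin d => Ico (0 : ℝ) 1)) :=
    MeasurableSet.univ_pi (fun i => measurableSet_Ico)
  -- the integral over the closed cube equals the integral over the half open cube
  have hae : (Set.pi Set.univ (fun _ : Fin d => Ico (0 : ℝ) 1)) =ᵐ[(volume : Measure (Fin d → ℝ))]
      Icc (0 : Fin d → ℝ) 1 := Measure.univ_pi_Ico_ae_eq_Icc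
  rw [← setIntegral_congr_set hae, ← integral_indicator hmC, ← integral_indicator (hcell_meas hN z)]
  have h1 := Measure.integral_comp_smul (volume : Measure (Fin d → ℝ))
    (fun x => (hcell N z).indicator f x) (1 / (N : ℝ))
  have h2 : ∫ y, (hcell N z).indicator f ((1 / (N : ℝ)) • y) =
      ∫ y, (hcell N z).indicator f ((1 / (N : ℝ)) • ((fun i => (z i : ℝ)) + y)) :=
    (integral_add_left_eq_self (fun y => (hcell N z).indicator f ((1 / (N : ℝ)) • y)) _).symm
  have h3 : ∀ y, (hcell N z).indicator f ((1 / (N : ℝ)) • ((fun i => (z i : ℝ)) + y)) =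
      (1 / (N : ℝ)) ^ k * (Set.pi Set.univ (fun _ : Fin d => Ico (0 : ℝ) 1)).indicator
        (fun y => (N : ℝ) ^ k • f (chart N z y)) y := by
    intro y
    have h4 : (1 / (N : ℝ)) • ((fun i => (z i : ℝ)) + y) = chart N z y := by
      funext i
      simp only [chart, Pi.smul_apply, Pi.add_apply, smul_eq_mul]
      ring
    rw [h4]
    have h5 : chart N z y ∈ hcell N z ↔ y ∈ Set.pi Set.univ (fun _ : Fin d => Ico (0 : ℝ) 1) := by
      simp only [hcell, Set.mem_ofPred_eq, Set.mem_pi, Set.mem_univ, true_implies, mem_Ico]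
      rw [funext_iff]
      refine forall_congr' (fun i => ?_)
      unfold idx
      have h6 : (N : ℝ) * chart N z y i = z i + y i := by
        simp only [chart, Pi.add_apply, Pi.smul_apply, smul_eq_mul]
        field_simp
      rw [h6, Int.floor_eq_iff]
      constructor
      · rintro ⟨h7, h8⟩; exact ⟨by linarith, by linarith⟩
      · rintro ⟨h7, h8⟩; exact ⟨by linarith, by linarith⟩
    by_cases h : y ∈ Set.pi Set.univ (fun _ : Fin d => Ico (0 : ℝ) 1)
    · rw [indicator_of_mem (h5.mpr h), indicator_of_mem h, smul_eq_mul, ← mul_assoc, ← mul_pow,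
        one_div, inv_mul_cancel₀ hN0, one_pow, one_mul]
    · rw [indicator_of_notMem (fun h' => h (h5.mp h')), indicator_of_notMem h, mul_zero]
  rw [h2] at h1
  simp only [h3] at h1
  rw [integral_const_mul, Module.finrank_fin_fun, smul_eq_mul] at h1
  have h4 : |((1 / (N : ℝ)) ^ d)⁻¹| = (N : ℝ) ^ d := by
    rw [abs_of_pos (by positivity), one_div, inv_pow, inv_inv]
  rw [h4] at h1
  have h5 : (1 / (N : ℝ)) ^ d * (N : ℝ) ^ d = 1 := by
    rw [← mul_pow, one_div, inv_mul_cancel₀ hN0, one_pow]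
  calc ∫ x, (hcell N z).indicator f x
      = ((1 / (N : ℝ)) ^ d * (N : ℝ) ^ d) * ∫ x, (hcell N z).indicator f x := by rw [h5, one_mul]
    _ = (1 / (N : ℝ)) ^ d * ((N : ℝ) ^ d * ∫ x, (hcell N z).indicator f x) := by ring
    _ = _ := by rw [← h1, pow_add]; ring

/-- points of a grid of mesh `δ` in a bounded set -/
lemma exists_grid {d : ℕ} (U : Set (Fin d → ℝ)) (R δ : ℝ) (hδ : 0 < δ)
    (hUR : ∀ x ∈ U, ∀ i, |x i| ≤ R) (hR : 0 ≤ R) :
    ∃ P : Finset (Fin d → ℝ), (∀ p ∈ P, p ∈ U) ∧ (P.card : ℝ) ≤ (2 * (R / δ) + 1) ^ d ∧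
      ∀ y ∈ U, (∀ i, ∃ m : ℤ, y i = m * δ) → y ∈ P := by
  classical
  let M : ℕ := ⌊R / δ⌋₊
  let A : Finset (Fin d → ℤ) := Fintype.piFinset (fun _ => Finset.Icc (-(M : ℤ)) M)
  refine ⟨(A.image (fun m : Fin d → ℤ => fun i => (m i : ℝ) * δ)).filter (fun p => p ∈ U), ?_, ?_, ?_⟩
  · intro p hp; exact (Finset.mem_filter.mp hp).2
  · have h1 : ((A.image (fun m : Fin d → ℤ => fun i => (m i : ℝ) * δ)).filter
        (fun p => p ∈ U)).card ≤ (2 * M + 1) ^ d := by
      refine (Finset.card_filter_le _ _).trans (Finset.card_image_le.trans ?_)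
      simp only [A, Fintype.card_piFinset, Int.card_Icc, Finset.prod_const, Finset.card_univ,
        Fintype.card_fin]
      apply Nat.pow_le_pow_left
      omega
    have h2 : (M : ℝ) ≤ R / δ := Nat.floor_le (by positivity)
    calc _ ≤ (((2 * M + 1) ^ d : ℕ) : ℝ) := by exact_mod_cast h1
      _ = (2 * (M : ℝ) + 1) ^ d := by push_cast; ring
      _ ≤ _ := by gcongr
  · intro y hy hm
    rw [Finset.mem_filter]
    refine ⟨?_, hy⟩
    choose m hm using hm
    rw [Finset.mem_image]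
    refine ⟨m, ?_, by funext i; exact (hm i).symm⟩
    simp only [A, Fintype.mem_piFinset, Finset.mem_Icc]
    intro i
    have h1 := hUR y hy i
    rw [hm i, abs_mul, abs_of_pos hδ, ← le_div_iff₀ hδ] at h1
    have h2 : ((m i).natAbs : ℝ) ≤ R / δ := by
      rw [Nat.cast_natAbs, Int.cast_abs]; exact h1
    have h3 : (m i).natAbs ≤ M := Nat.le_floor h2
    omega

/-- The upper bound: for a domain with the cone property, `μ N^d` points give the error
`τ N^(-k)`. -/
lemma upper_core (d k : ℕ) (hd : 1 ≤ d) (hk : 1 ≤ k) (D : Set (Fin d → ℝ))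
    (hb : Bornology.IsBounded D) (hfr : volume (frontier D) = 0) (hv : volume D = 1)
    (θ r : ℝ) (hθ : 0 < θ) (hθ1 : θ ≤ 1) (hr : 0 < r)
    (hcone : ∀ x ∈ interior D, ∃ v : Fin d → ℝ, ‖v‖ ≤ 1 ∧ ∀ t : ℝ, 0 < t → t ≤ r →
        Metric.closedBall (x + t • v) (θ * t) ⊆ interior D)
    (m : ℕ) (e : ℝ) (he : 0 ≤ e) (hG : Good d k m e) (μ τ : ℝ) (hμ : (m : ℝ) < μ) (hτ : e < τ) :
    ∃ N0 : ℕ, 0 < N0 ∧ ∀ N ≥ N0, ∀ n : ℕ, μ * (N : ℝ) ^ d ≤ n →
      ∃ P : Finset (Fin d → ℝ), (∀ p ∈ P, p ∈ D) ∧ P.card ≤ n ∧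
        ∀ f : (Fin d → ℝ) → ℝ, cF k D f → (∀ p ∈ P, f p = 0) →
          |∫ y in D, f y| ≤ τ * (1 / (N : ℝ)) ^ k := by
  classical
  set U := interior D with hUdef
  have hUo : IsOpen U := isOpen_interior
  have hbU : Bornology.IsBounded U := hb.subset interior_subset
  have hDU : D =ᵐ[volume] U := (interior_ae_eq_of_null_frontier hfr).symm
  have hvU : volume U = 1 := by rw [← measure_congr hDU]; exact hv
  obtain ⟨C1, δ0, hC1, hδ0, hsmall⟩ := cone_small d k hk θ r hθ hθ1 hr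
  obtain ⟨P0, hP0I, hP0c, hP0⟩ := hG
  -- bounding radius
  obtain ⟨R, hR1, hUR⟩ : ∃ R : ℝ, 1 ≤ R ∧ ∀ x ∈ U, ∀ i, |x i| ≤ R := by
    obtain ⟨R, hR⟩ := hbU.subset_closedBall 0
    refine ⟨max R 1, le_max_right _ _, fun x hx i => ?_⟩
    have h1 := hR hx
    rw [mem_closedBall_zero_iff] at h1
    exact ((norm_le_pi_norm x i).trans h1).trans (le_max_left _ _)
  set κ : ℝ := min 1 (μ - m) with hκ
  have hκ0 : 0 < κ := lt_min one_pos (by linarith)
  have hκ1 : κ ≤ 1 := min_le_left _ _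
  have hκμ : κ ≤ μ - m := min_le_right _ _
  set γ : ℝ := 3 * R / κ with hγ
  have hγ0 : 0 < γ := by positivity
  set ζ : ℝ := (τ - e) / (C1 * γ ^ k + 1) with hζ
  have hζ0 : 0 < ζ := div_pos (by linarith) (by positivity)
  have hζb : C1 * γ ^ k * ζ ≤ τ - e := by
    rw [hζ, mul_div_assoc', div_le_iff₀ (by positivity)]
    nlinarith [mul_nonneg hC1 (pow_nonneg hγ0.le k)]
  obtain ⟨N1, hN1, hinner⟩ := inner_ge U hUo hbU hvU ζ hζ0
  refine ⟨max N1 (⌈γ / δ0⌉₊ + ⌈γ / R⌉₊ + 1), by positivity, ?_⟩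
  intro N hN n hn
  have hNN1 : N1 ≤ N := (le_max_left _ _).trans hN
  have hNN2 : ⌈γ / δ0⌉₊ + ⌈γ / R⌉₊ + 1 ≤ N := (le_max_right _ _).trans hN
  have hNpos : 0 < N := by omega
  have hN0 : (0 : ℝ) < N := by exact_mod_cast hNpos
  have hNr : γ / δ0 + γ / R ≤ N := by
    have h1 := Nat.le_ceil (γ / δ0)
    have h2 := Nat.le_ceil (γ / R)
    have h3 : ((⌈γ / δ0⌉₊ + ⌈γ / R⌉₊ + 1 : ℕ) : ℝ) ≤ N := by exact_mod_cast hNN2
    push_cast at h3
    linarith
  have hNδ : γ / N ≤ δ0 := by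
    rw [div_le_iff₀ hN0]
    have h1 : γ / δ0 ≤ N := by
      have : 0 ≤ γ / R := by positivity
      linarith
    rw [div_le_iff₀ hδ0] at h1
    linarith
  have hNR : γ ≤ R * N := by
    have h1 : γ / R ≤ N := by
      have : 0 ≤ γ / δ0 := by positivity
      linarith
    rw [div_le_iff₀ (by linarith)] at h1
    linarith
  set δ : ℝ := γ / N with hδ
  have hδpos : 0 < δ := by positivity
  obtain ⟨Pg, hPgU, hPgc, hPg⟩ := exists_grid U R δ hδpos hUR (by linarith)
  set Z := inner N U with hZ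
  have hZmem : ∀ z, z ∈ Z ↔ ccell N z ⊆ U := mem_inner hbU hNpos
  have hZle := inner_le hNpos U hbU hvU
  have hZge := hinner N hNN1
  rw [← hZ] at hZle hZge
  let Pc : Finset (Fin d → ℝ) := Z.biUnion (fun z => P0.image (chart N z))
  refine ⟨Pc ∪ Pg, ?_, ?_, ?_⟩
  · intro p hp
    rw [Finset.mem_union] at hp
    rcases hp with hp | hp
    · simp only [Pc, Finset.mem_biUnion, Finset.mem_image] at hp
      obtain ⟨z, hz, y, hy, rfl⟩ := hp
      exact interior_subset ((hZmem z).mp hz (chart_mem hNpos z y (hP0I y hy)))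
    · exact interior_subset (hPgU p hp)
  · have h1 : ((Pc ∪ Pg).card : ℝ) ≤ Z.card * m + (2 * (R / δ) + 1) ^ d := by
      have h2 : (Pc ∪ Pg).card ≤ Pc.card + Pg.card := Finset.card_union_le _ _
      have h3 : Pc.card ≤ Z.card * m := by
        refine Finset.card_biUnion_le_card_mul _ _ _ (fun z _ => ?_)
        exact Finset.card_image_le.trans hP0c
      have h4 : ((Pc ∪ Pg).card : ℝ) ≤ (Pc.card : ℝ) + Pg.card := by exact_mod_cast h2
      have h5 : (Pc.card : ℝ) ≤ Z.card * m := by exact_mod_cast h3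
      linarith
    have h2 : (Z.card : ℝ) ≤ (N : ℝ) ^ d := by
      have h3 : (Z.card : ℝ) * (1 / (N : ℝ)) ^ d * (N : ℝ) ^ d ≤ 1 * (N : ℝ) ^ d :=
        mul_le_mul_of_nonneg_right hZle (by positivity)
      rw [mul_assoc, ← mul_pow, one_div, inv_mul_cancel₀ hN0.ne', one_pow, mul_one, one_mul] at h3
      exact h3
    have h3 : (2 * (R / δ) + 1) ^ d ≤ κ * (N : ℝ) ^ d := by
      have h4 : 2 * (R / δ) + 1 ≤ κ * N := by
        have h5 : R / δ = κ * N / 3 := by
          rw [hδ, hγ]; field_simp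
        have h6 : 3 ≤ κ * N := by
          have h7 : 3 * R / κ ≤ R * N := hNR
          rw [div_le_iff₀ hκ0] at h7
          have h8 : 3 * R ≤ (κ * N) * R := by linarith
          exact le_of_mul_le_mul_right h8 (by linarith)
        rw [h5]; linarith
      calc (2 * (R / δ) + 1) ^ d ≤ (κ * N) ^ d := by
            apply pow_le_pow_left₀ (by positivity) h4
        _ = κ ^ d * (N : ℝ) ^ d := mul_pow _ _ _
        _ ≤ κ * (N : ℝ) ^ d := by
            apply mul_le_mul_of_nonneg_right _ (by positivity)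
            calc κ ^ d ≤ κ ^ 1 := pow_le_pow_of_le_one hκ0.le hκ1 hd
              _ = κ := pow_one _
    have h4 : (Z.card : ℝ) * m ≤ (N : ℝ) ^ d * m :=
      mul_le_mul_of_nonneg_right h2 (Nat.cast_nonneg m)
    have h5 : κ * (N : ℝ) ^ d ≤ (μ - m) * (N : ℝ) ^ d :=
      mul_le_mul_of_nonneg_right hκμ (by positivity)
    have h6 : ((Pc ∪ Pg).card : ℝ) ≤ n := by nlinarith
    exact_mod_cast h6
  · intro f hf hfP
    obtain ⟨hfc, hf1, hfPB⟩ := hf
    have hfsmall : ∀ x ∈ U, |f x| ≤ C1 * δ ^ k := by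
      apply hsmall f U δ hUo hfc hδpos hNδ hcone (fun y hy => hfPB k le_rfl y hy)
      intro y hy hm
      exact hfP y (Finset.mem_union_right _ (hPg y hy hm))
    have hUfin : volume U ≠ ⊤ := by rw [hvU]; exact ENNReal.one_ne_top
    have hfint : IntegrableOn f U := by
      refine IntegrableOn.of_bound (lt_top_iff_ne_top.mpr hUfin)
        (hfc.continuousOn.aestronglyMeasurable hUo.measurableSet) 1 ?_
      refine (ae_restrict_iff' hUo.measurableSet).mpr (Filter.Eventually.of_forall ?_)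
      intro x hx
      rw [Real.norm_eq_abs]
      exact hf1 x (interior_subset hx)
    rw [setIntegral_congr_set hDU]
    set V := ⋃ z ∈ Z, hcell N z with hV
    have hVU : V ⊆ U := by
      intro x hx
      simp only [hV, mem_iUnion] at hx
      obtain ⟨z, hz, hx⟩ := hx
      exact (hZmem z).mp hz (hcell_sub N z hx)
    have hVm : MeasurableSet V := Finset.measurableSet_biUnion Z (fun z _ => hcell_meas hNpos z)
    have hsplit : ∫ x in U, f x = (∫ x in V, f x) + ∫ x in U \ V, f x := by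
      rw [← setIntegral_union disjoint_sdiff_right (hUo.measurableSet.diff hVm)
        (hfint.mono_set hVU) (hfint.mono_set sdiff_subset), Set.union_sdiff_cancel hVU]
    have hI1 : |∫ x in V, f x| ≤ (1 / (N : ℝ)) ^ k * e := by
      have h1 : ∫ x in V, f x = ∑ z ∈ Z, ∫ x in hcell N z, f x := by
        rw [hV]
        exact integral_biUnion_finset Z (fun z _ => hcell_meas hNpos z)
          (fun z _ z' _ h => hcell_disj N h)
          (fun z hz => hfint.mono_set (fun x hx => hVU (mem_biUnion hz hx)))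
      rw [h1]
      refine (Finset.abs_sum_le_sum_abs _ _).trans ?_
      have h2 : ∀ z ∈ Z, |∫ x in hcell N z, f x| ≤ (1 / (N : ℝ)) ^ (k + d) * e := by
        intro z hz
        rw [hcell_integral (k := k) hNpos z f, abs_mul, abs_of_pos (by positivity)]
        apply mul_le_mul_of_nonneg_left _ (by positivity)
        apply hP0 _ (cG_chart hNpos z hUo ((hZmem z).mp hz) hfc (fun x hx => hfPB k le_rfl x hx))
        intro p hp
        have h3 : f (chart N z p) = 0 := by
          apply hfP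
          apply Finset.mem_union_left
          simp only [Pc, Finset.mem_biUnion, Finset.mem_image]
          exact ⟨z, hz, p, hp, rfl⟩
        simp only [h3, smul_zero]
      refine (Finset.sum_le_sum h2).trans ?_
      rw [Finset.sum_const, nsmul_eq_mul, pow_add]
      have h3 : 0 ≤ (1 / (N : ℝ)) ^ k * e := by positivity
      calc (Z.card : ℝ) * ((1 / (N : ℝ)) ^ k * (1 / (N : ℝ)) ^ d * e)
          = ((Z.card : ℝ) * (1 / (N : ℝ)) ^ d) * ((1 / (N : ℝ)) ^ k * e) := by ring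
        _ ≤ 1 * ((1 / (N : ℝ)) ^ k * e) := mul_le_mul_of_nonneg_right hZle h3
        _ = _ := one_mul _
    have hI2 : |∫ x in U \ V, f x| ≤ C1 * δ ^ k * ζ := by
      have hvol : (volume (U \ V)).toReal ≤ ζ := by
        have hVfin : volume V ≠ ⊤ := (measure_mono hVU).trans_lt (lt_top_iff_ne_top.mpr hUfin) |>.ne
        rw [measure_sdiff hVU hVm.nullMeasurableSet hVfin, hvU, hV, union_volume hNpos,
          ENNReal.toReal_sub_of_le (by
            rw [← ENNReal.ofReal_one]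
            exact ENNReal.ofReal_le_ofReal hZle) ENNReal.one_ne_top, ENNReal.toReal_one,
          ENNReal.toReal_ofReal (by positivity)]
        linarith
      have h1 : ‖∫ x in U \ V, f x‖ ≤ (C1 * δ ^ k) * (volume (U \ V)).toReal := by
        apply norm_setIntegral_le_of_norm_le_const
        · exact (measure_mono sdiff_subset).trans_lt (lt_top_iff_ne_top.mpr hUfin)
        · intro x hx
          rw [Real.norm_eq_abs]
          exact hfsmall x hx.1
      rw [Real.norm_eq_abs] at h1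
      refine h1.trans ?_
      exact mul_le_mul_of_nonneg_left hvol (by positivity)
    rw [hsplit]
    refine (abs_add_le _ _).trans ((add_le_add hI1 hI2).trans ?_)
    have h1 : C1 * δ ^ k * ζ ≤ (τ - e) * (1 / (N : ℝ)) ^ k := by
      have h2 : δ ^ k = γ ^ k * (1 / (N : ℝ)) ^ k := by
        rw [hδ, ← mul_pow, mul_one_div]
      calc C1 * δ ^ k * ζ = (C1 * γ ^ k * ζ) * (1 / (N : ℝ)) ^ k := by rw [h2]; ring
        _ ≤ (τ - e) * (1 / (N : ℝ)) ^ k := mul_le_mul_of_nonneg_right hζb (by positivity)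
    linarith

end Pool.Agent.Helper43.Quad
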