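import Mathlib
import Pool.Agent.Helper43.Quad.Upper

set_option autoImplicit false

open Set MeasureTheory Topology

namespace Pool.Agent.Helper43.Quad

lemma cG_of_cK {d k : ℕ} {g : (Fin d → ℝ) → ℝ} (hg : cK k g) : cG k g :=
  ⟨Set.univ, isOpen_univ, Set.subset_univ _, hg.1.contDiffOn, fun y _ => hg.2.2 y⟩

lemma cK_integral_eq {d k : ℕ} {g : (Fin d → ℝ) → ℝ} (hg : cK k g) :
    ∫ x in Icc (0 : Fin d → ℝ) 1, g x = ∫ x, g x := by
  apply setIntegral_eq_integral_of_forall_compl_eq_zero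
  intro x hx
  by_contra h
  have h1 : x ∈ tsupport g := subset_tsupport g (Function.mem_support.mpr h)
  have h2 := hg.2.1 h1
  exact hx ⟨fun i => (h2 i).1.le, fun i => (h2 i).2.le⟩

lemma thin_exists (d k : ℕ) (hd : 1 ≤ d) (hk : 1 ≤ k) : ∃ c : ℝ, 0 ≤ c ∧ Thin d k c := by
  obtain ⟨C0, hC0, hC0'⟩ := cube_unif d k hk
  refine ⟨C0 * 2 ^ k, by positivity, ?_⟩
  intro m0
  set J := max k m0 with hJ
  have hkJ : k ≤ J := le_max_left _ _
  have hmJ : m0 ≤ J := le_max_right _ _
  have hJpos : 0 < J := by omega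
  have hJ0 : (0 : ℝ) < J := by exact_mod_cast hJpos
  have hJ1 : (1 : ℝ) ≤ J := by exact_mod_cast hJpos
  refine ⟨(J + 1) ^ d, ?_, gridFin d J, gridFin_card d J, ?_⟩
  · calc m0 ≤ J + 1 := by omega
      _ = (J + 1) ^ 1 := (pow_one _).symm
      _ ≤ (J + 1) ^ d := Nat.pow_le_pow_right (by omega) hd
  · intro g hg hgP
    have hgrid : gridZero J g := fun y hy => hgP y (gridFin_mem y hy)
    rw [← cK_integral_eq hg]
    have h1 : ∀ y ∈ Icc (0 : Fin d → ℝ) 1, g y ≤ C0 * (1 / (J : ℝ)) ^ k := by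
      intro y hy
      have h2 := hC0' 0 (by omega) g J (cG_of_cK hg) hkJ hgrid y hy (fun x => x.elim0)
      rw [iteratedFDeriv_zero_apply, Nat.sub_zero] at h2
      exact (le_abs_self _).trans h2
    have h2 : ∫ y in Icc (0 : Fin d → ℝ) 1, g y ≤
        ∫ y in Icc (0 : Fin d → ℝ) 1, C0 * (1 / (J : ℝ)) ^ k := by
      apply setIntegral_mono_on (cK_integrable hg).integrableOn _ measurableSet_Icc h1
      exact (continuous_const.continuousOn).integrableOn_compact isCompact_Icc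
    have h3 : ∫ y in Icc (0 : Fin d → ℝ) 1, C0 * (1 / (J : ℝ)) ^ k = C0 * (1 / (J : ℝ)) ^ k := by
      rw [setIntegral_const, smul_eq_mul]
      have : volume.real (Icc (0 : Fin d → ℝ) 1) = 1 := by
        rw [Measure.real, volume_closed_cube]; simp
      rw [this, one_mul]
    rw [h3] at h2
    refine h2.trans ?_
    have h4 : (((J + 1) ^ d : ℕ) : ℝ) ^ (-qq d k) = (1 / ((J : ℝ) + 1)) ^ k := by
      have hd0 : (d : ℝ) ≠ 0 := by positivity
      push_cast
      rw [← Real.rpow_natCast, ← Real.rpow_mul (by positivity), one_div, inv_pow,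
        ← Real.rpow_natCast, ← Real.rpow_neg (by positivity)]
      congr 1
      unfold qq; field_simp
    rw [h4, mul_assoc]
    apply mul_le_mul_of_nonneg_left _ hC0
    rw [← mul_pow]
    apply pow_le_pow_left₀ (by positivity)
    rw [mul_one_div, div_le_div_iff₀ hJ0 (by positivity)]
    linarith

lemma exists_bump (d k : ℕ) (hk : 1 ≤ k) : ∃ g : (Fin d → ℝ) → ℝ, cK k g ∧ 0 < ∫ x, g x := by
  obtain ⟨χ, B, hχ, hχs, hχ01, hχint, hB, hχB⟩ := exists_cutoff d k (1 / 2) (by norm_num)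
  have hK : cK k (fun x => (B + 1)⁻¹ • χ x) := by
    refine ⟨hχ.const_smul _, ?_, ?_⟩
    · have h1 : tsupport (fun x => (B + 1)⁻¹ • χ x) ⊆ tsupport χ := by
        apply closure_mono
        intro x hx
        rw [Function.mem_support] at hx ⊢
        intro h; apply hx; rw [h]; simp
      exact h1.trans hχs
    · intro x r
      rw [iteratedFDeriv_const_smul_apply' hχ.contDiffAt, smul_apply, smul_eq_mul, abs_mul,
        abs_of_pos (by positivity), inv_mul_le_iff₀ (by positivity), mul_one]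
      have h4 := (iteratedFDeriv ℝ k χ x).le_opNorm (fun m => ev (r m))
      rw [Real.norm_eq_abs] at h4
      refine h4.trans ?_
      have h5 : ∏ m : Fin k, ‖(ev (r m) : Fin d → ℝ)‖ ≤ 1 :=
        Finset.prod_le_one (fun m _ => norm_nonneg _) (fun m _ => norm_ev_le _)
      calc _ ≤ ‖iteratedFDeriv ℝ k χ x‖ * 1 := mul_le_mul_of_nonneg_left h5 (norm_nonneg _)
        _ ≤ B + 1 := by rw [mul_one]; linarith [hχB k le_rfl x]
  refine ⟨_, hK, ?_⟩
  rw [← cK_integral_eq hK, integral_smul, smul_eq_mul]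
  apply mul_pos (by positivity)
  have hI1 : IntegrableOn χ (Icc (0 : Fin d → ℝ) 1) :=
    (hχ.continuous.continuousOn).integrableOn_compact isCompact_Icc
  have hI2 : IntegrableOn (fun _ : Fin d → ℝ => (1 : ℝ)) (Icc (0 : Fin d → ℝ) 1) :=
    (continuous_const.continuousOn).integrableOn_compact isCompact_Icc
  rw [integral_sub hI2 hI1, setIntegral_const, smul_eq_mul, mul_one] at hχint
  have : volume.real (Icc (0 : Fin d → ℝ) 1) = 1 := by
    rw [Measure.real, volume_closed_cube]; simp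
  rw [this] at hχint
  linarith

lemma not_thin (d k : ℕ) (hd : 1 ≤ d) (hk : 1 ≤ k) : ∃ a : ℝ, 0 < a ∧ ¬ Thin d k a := by
  classical
  obtain ⟨g0, hg0, hg0int⟩ := exists_bump d k hk
  set c0 := ∫ x, g0 x with hc0
  have hd0 : (0 : ℝ) < d := by exact_mod_cast hd
  set a : ℝ := c0 / 4 * ((1 / 2) ^ k * 2 ^ (-qq d k)) with ha
  have ha0 : 0 < a := by positivity
  refine ⟨a, ha0, ?_⟩
  intro hT
  obtain ⟨m, hm, P, hPc, hP⟩ := hT 1
  have hm0 : (0 : ℝ) < m := by exact_mod_cast hm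
  have hm1 : (1 : ℝ) ≤ m := by exact_mod_cast hm
  set s : ℝ := (2 * m) ^ (1 / (d : ℝ)) with hs
  have h2m : (0 : ℝ) < 2 * m := by positivity
  have hs1 : 1 ≤ s := Real.one_le_rpow (by linarith) (by positivity)
  have hs0 : 0 < s := by linarith
  have hsd : s ^ d = 2 * m := by
    rw [hs, ← Real.rpow_natCast, ← Real.rpow_mul h2m.le, one_div, inv_mul_cancel₀ hd0.ne',
      Real.rpow_one]
  set N : ℕ := ⌈s⌉₊ with hN
  have hNpos : 0 < N := Nat.ceil_pos.mpr hs0
  have hN0 : (0 : ℝ) < N := by exact_mod_cast hNpos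
  have hNs : s ≤ N := Nat.le_ceil s
  have hNs2 : (N : ℝ) ≤ 2 * s := by
    have := (Nat.ceil_lt_add_one hs0.le).le
    rw [← hN] at this
    linarith
  have hNd : 2 * (m : ℝ) ≤ (N : ℝ) ^ d := by
    rw [← hsd]; exact pow_le_pow_left₀ hs0.le hNs d
  let A : Finset (Fin d → ℤ) := Fintype.piFinset (fun _ => Finset.Ico (0 : ℤ) N)
  have hA : (A.card : ℝ) = (N : ℝ) ^ d := by
    simp [A, Fintype.card_piFinset]
  let Z : Finset (Fin d → ℤ) := A \ P.image (idx N)
  have hZc : (N : ℝ) ^ d / 2 ≤ Z.card := by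
    have h1 : A.card ≤ Z.card + (P.image (idx N)).card := by
      have := Finset.le_card_sdiff (P.image (idx N)) A
      simp only [Z]
      omega
    have h2 : (P.image (idx N)).card ≤ m := Finset.card_image_le.trans hPc
    have h3 : (A.card : ℝ) ≤ Z.card + m := by
      have : A.card ≤ Z.card + m := by omega
      exact_mod_cast this
    rw [hA] at h3
    linarith
  have hgK : ∀ z : Fin d → ℤ, cK k ((fun _ => g0) z : (Fin d → ℝ) → ℝ) := fun _ => hg0
  have hZmem : ∀ z ∈ Z, ∀ i, (0 : ℝ) ≤ z i ∧ (z i : ℝ) + 1 ≤ N := by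
    intro z hz i
    have h1 := (Finset.mem_sdiff.mp hz).1
    simp only [A, Fintype.mem_piFinset, Finset.mem_Ico] at h1
    have h2 := h1 i
    constructor
    · exact_mod_cast h2.1
    · exact_mod_cast h2.2
  have hK : cK k (asm k N Z (fun _ => g0)) := by
    refine ⟨asm_contDiff Z _ hgK, ?_, fun x => asm_PB (by omega) hNpos Z _ hgK le_rfl x⟩
    have hclosed : IsClosed (⋃ z ∈ Z,
        (fun x : Fin d → ℝ => (fun i => -(z i : ℝ)) + (N : ℝ) • x) ⁻¹' tsupport g0) := by
      apply isClosed_biUnion_finset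
      intro z _
      exact (isClosed_tsupport g0).preimage (by fun_prop)
    have hsub : tsupport (asm k N Z (fun _ => g0)) ⊆ ⋃ z ∈ Z,
        (fun x : Fin d → ℝ => (fun i => -(z i : ℝ)) + (N : ℝ) • x) ⁻¹' tsupport g0 := by
      apply closure_minimal _ hclosed
      intro x hx
      rw [Function.mem_support, asm_value hNpos Z _ hgK] at hx
      by_cases h : idx N x ∈ Z
      · rw [if_pos h] at hx
        simp only [mem_iUnion, mem_preimage]
        exact ⟨idx N x, h, subset_tsupport g0 (Function.mem_support.mpr (right_ne_zero_of_mul hx))⟩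
      · rw [if_neg h] at hx; exact absurd rfl hx
    refine hsub.trans ?_
    intro x hx
    simp only [mem_iUnion, mem_preimage] at hx
    obtain ⟨z, hz, hx⟩ := hx
    have h1 := hg0.2.1 hx
    intro i
    have h2 := h1 i
    simp only [Pi.add_apply, Pi.smul_apply, smul_eq_mul] at h2
    have h3 := hZmem z hz i
    constructor
    · have : 0 < (N : ℝ) * x i := by linarith [h2.1, h3.1]
      exact (mul_pos_iff_of_pos_left hN0).mp this
    · have : (N : ℝ) * x i < N * 1 := by linarith [h2.2, h3.2]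
      exact lt_of_mul_lt_mul_left this hN0.le
  have hvan : ∀ p ∈ P, asm k N Z (fun _ => g0) p = 0 := by
    intro p hp
    rw [asm_value hNpos Z _ hgK]
    rw [if_neg]
    intro h
    exact (Finset.mem_sdiff.mp h).2 (Finset.mem_image_of_mem _ hp)
  have hle := hP _ hK hvan
  rw [asm_integral hNpos Z _ hgK, Finset.sum_const, nsmul_eq_mul, ← hc0] at hle
  -- lower bound for the left side
  have h1 : (1 / (N : ℝ)) ^ k * (c0 / 2) ≤ (1 / (N : ℝ)) ^ (k + d) * (Z.card * c0) := by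
    rw [pow_add]
    have h2 : (1 / (N : ℝ)) ^ d * ((N : ℝ) ^ d / 2) = 1 / 2 := by
      rw [mul_div_assoc', ← mul_pow, one_div, inv_mul_cancel₀ hN0.ne', one_pow]
    calc (1 / (N : ℝ)) ^ k * (c0 / 2) = (1 / (N : ℝ)) ^ k * ((1 / (N : ℝ)) ^ d * ((N : ℝ) ^ d / 2) * c0) := by
          rw [h2]; ring
      _ ≤ (1 / (N : ℝ)) ^ k * ((1 / (N : ℝ)) ^ d * (Z.card) * c0) := by gcongr
      _ = _ := by ring
  have h2 : (1 / 2) ^ k * 2 ^ (-qq d k) * (m : ℝ) ^ (-qq d k) ≤ (1 / (N : ℝ)) ^ k := by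
    have h3 : (1 / (2 * s)) ^ k ≤ (1 / (N : ℝ)) ^ k := by
      apply pow_le_pow_left₀ (by positivity)
      exact one_div_le_one_div_of_le hN0 hNs2
    refine le_trans (le_of_eq ?_) h3
    rw [mul_assoc, ← Real.mul_rpow (by norm_num) hm0.le]
    have h4 : (1 / (2 * s)) = (1 / 2) * s⁻¹ := by rw [one_div, mul_inv]; norm_num
    rw [h4, mul_pow]
    congr 1
    rw [hs, ← Real.rpow_neg h2m.le, ← Real.rpow_natCast, ← Real.rpow_mul h2m.le]
    congr 1
    unfold qq; ring
  have h3 : a * (m : ℝ) ^ (-qq d k) < (1 / (N : ℝ)) ^ k * (c0 / 2) := by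
    have h4 : 0 < (1 / (N : ℝ)) ^ k := by positivity
    calc a * (m : ℝ) ^ (-qq d k) = c0 / 4 * ((1 / 2) ^ k * 2 ^ (-qq d k) * (m : ℝ) ^ (-qq d k)) := by
          rw [ha]; ring
      _ ≤ c0 / 4 * (1 / (N : ℝ)) ^ k := mul_le_mul_of_nonneg_left h2 (by positivity)
      _ < (1 / (N : ℝ)) ^ k * (c0 / 2) := by nlinarith
  linarith

end Pool.Agent.Helper43.Quad
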