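import Mathlib
import Pool.Agent.Helper43.Quad.Consts

set_option autoImplicit false

open Set MeasureTheory Topology Filter

namespace Pool.Agent.Helper43.Quad

/-- positions of the slits -/
noncomputable def slit (s : ℝ) (j : ℕ) : ℝ := 1 - ((j : ℝ) + 1) ^ (-s)

lemma slit_mono {s : ℝ} (hs : 0 < s) {j l : ℕ} (h : j ≤ l) : slit s j ≤ slit s l := by
  unfold slit
  have h1 : ((j : ℝ) + 1) ≤ (l : ℝ) + 1 := by
    have : (j : ℝ) ≤ l := by exact_mod_cast h
    linarith
  have h2 : ((l : ℝ) + 1) ^ (-s) ≤ ((j : ℝ) + 1) ^ (-s) :=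
    Real.rpow_le_rpow_of_nonpos (by positivity) h1 (by linarith)
  linarith

lemma slit_zero (s : ℝ) : slit s 0 = 0 := by
  unfold slit; simp

lemma slit_lt_one (s : ℝ) (j : ℕ) : slit s j < 1 := by
  unfold slit
  have : 0 < ((j : ℝ) + 1) ^ (-s) := Real.rpow_pos_of_pos (by positivity) _
  linarith

lemma slit_tendsto {s : ℝ} (hs : 0 < s) : Tendsto (slit s) atTop (𝓝 1) := by
  have h1 : Tendsto (fun j : ℕ => ((j : ℝ) + 1) ^ (-s)) atTop (𝓝 0) := by
    have h2 := tendsto_rpow_neg_atTop hs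
    exact h2.comp (tendsto_atTop_add_const_right _ 1 tendsto_natCast_atTop_atTop)
  have h2 := (tendsto_const_nhds (x := (1 : ℝ))).sub h1
  rw [sub_zero] at h2
  exact h2

lemma slit_gap {s : ℝ} (hs : 0 < s) (j : ℕ) :
    s * ((j : ℝ) + 2) ^ (-s - 1) ≤ slit s (j + 1) - slit s j := by
  have h1 := rpow_tangent s ((j : ℝ) + 1) ((j : ℝ) + 2) hs.le (by positivity) (by positivity)
  unfold slit
  push_cast
  have h2 : ((j : ℝ) + 1) / ((j : ℝ) + 2) - 1 = -(((j : ℝ) + 2)⁻¹) := by
    field_simp; ring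
  have h3 : ((j : ℝ) + 2) ^ (-s - 1) = ((j : ℝ) + 2) ^ (-s) * ((j : ℝ) + 2)⁻¹ := by
    rw [Real.rpow_sub_one (by positivity), div_eq_mul_inv]
  rw [h2] at h1
  rw [h3]
  have h4 : (j : ℝ) + 1 + 1 = j + 2 := by ring
  rw [h4]
  nlinarith

/-- the slit cube -/
def slitCube (d : ℕ) (i0 : Fin d) (s : ℝ) : Set (Fin d → ℝ) :=
  {x | (∀ i, 0 < x i ∧ x i < 1) ∧ ∀ j : ℕ, x i0 ≠ slit s j}

lemma slitCube_open (d : ℕ) (i0 : Fin d) (s : ℝ) (hs : 0 < s) : IsOpen (slitCube d i0 s) := by
  have hK : IsClosed (insert (1 : ℝ) (Set.range (slit s))) :=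
    (slit_tendsto hs).isCompact_insert_range.isClosed
  have heq : slitCube d i0 s = {x | ∀ i, 0 < x i ∧ x i < 1} ∩
      (fun x : Fin d → ℝ => x i0) ⁻¹' (insert (1 : ℝ) (Set.range (slit s)))ᶜ := by
    ext x
    simp only [slitCube, Set.mem_ofPred_eq, mem_inter_iff, mem_preimage, mem_compl_iff,
      mem_insert_iff, mem_range, not_or, not_exists]
    constructor
    · rintro ⟨h1, h2⟩
      exact ⟨h1, (h1 i0).2.ne, fun j h => h2 j h.symm⟩
    · rintro ⟨h1, _, h2⟩
      exact ⟨h1, fun j h => h2 j h.symm⟩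
  rw [heq]
  exact (isOpen_cube d).inter (hK.isOpen_compl.preimage (continuous_apply i0))

lemma slitCube_bounded (d : ℕ) (i0 : Fin d) (s : ℝ) : Bornology.IsBounded (slitCube d i0 s) := by
  apply (Metric.isBounded_Icc (0 : Fin d → ℝ) 1).subset
  intro x hx
  exact ⟨fun i => (hx.1 i).1.le, fun i => (hx.1 i).2.le⟩

lemma hyper_null {d : ℕ} (i : Fin d) (c : ℝ) : volume {x : Fin d → ℝ | x i = c} = 0 :=
  Measure.pi_hyperplane (fun _ => (volume : Measure ℝ)) i c

lemma slitCube_frontier (d : ℕ) (i0 : Fin d) (s : ℝ) (hs : 0 < s) :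
    volume (frontier (slitCube d i0 s)) = 0 := by
  have hsub : frontier (slitCube d i0 s) ⊆
      ((⋃ i : Fin d, {x : Fin d → ℝ | x i = 0}) ∪ (⋃ i : Fin d, {x : Fin d → ℝ | x i = 1})) ∪
        ⋃ j : ℕ, {x : Fin d → ℝ | x i0 = slit s j} := by
    intro x hx
    have hcl : closure (slitCube d i0 s) ⊆ Icc (0 : Fin d → ℝ) 1 := by
      apply closure_minimal _ isClosed_Icc
      intro x hx
      exact ⟨fun i => (hx.1 i).1.le, fun i => (hx.1 i).2.le⟩
    have h1 := hcl hx.1
    have h2 : x ∉ slitCube d i0 s := by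
      intro h
      exact hx.2 (by rwa [(slitCube_open d i0 s hs).interior_eq])
    by_contra hcon
    apply h2
    simp only [mem_union, mem_iUnion, Set.mem_ofPred_eq, not_or, not_exists] at hcon
    refine ⟨fun i => ⟨lt_of_le_of_ne (h1.1 i) (Ne.symm (hcon.1.1 i)),
      lt_of_le_of_ne (h1.2 i) (hcon.1.2 i)⟩, hcon.2⟩
  refine measure_mono_null hsub ?_
  rw [measure_union_null_iff, measure_union_null_iff]
  refine ⟨⟨?_, ?_⟩, ?_⟩
  · exact measure_iUnion_null (fun i => hyper_null i 0)
  · exact measure_iUnion_null (fun i => hyper_null i 1)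
  · exact measure_iUnion_null (fun j => hyper_null i0 _)

lemma slitCube_volume (d : ℕ) (i0 : Fin d) (s : ℝ) : volume (slitCube d i0 s) = 1 := by
  apply le_antisymm
  · rw [← volume_open_cube d]
    exact measure_mono (fun x hx => hx.1)
  · rw [← volume_open_cube d]
    have hsub : {x : Fin d → ℝ | ∀ i, 0 < x i ∧ x i < 1} ⊆
        slitCube d i0 s ∪ ⋃ j : ℕ, {x : Fin d → ℝ | x i0 = slit s j} := by
      intro x hx
      by_cases h : ∃ j, x i0 = slit s j
      · right; simpa using h
      · left; push Not at h; exact ⟨hx, h⟩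
    refine (measure_mono hsub).trans ((measure_union_le _ _).trans ?_)
    rw [measure_iUnion_null (fun j => hyper_null i0 _), add_zero]

/-- lying in the same slab -/
def same {d : ℕ} (i0 : Fin d) (s : ℝ) (x y : Fin d → ℝ) : Prop :=
  ∀ j : ℕ, (x i0 < slit s j ↔ y i0 < slit s j)

lemma same_nhds {d : ℕ} (i0 : Fin d) (s : ℝ) (hs : 0 < s) (y : Fin d → ℝ)
    (hy : y ∈ slitCube d i0 s) : ∀ᶠ x in 𝓝 y, same i0 s x y := by
  classical
  have hex : ∃ j, y i0 < slit s j :=
    ((slit_tendsto hs).eventually (lt_mem_nhds (hy.1 i0).2)).exists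
  let j0 := Nat.find hex
  have hj0 : y i0 < slit s j0 := Nat.find_spec hex
  have hpos : 0 < j0 := by
    rcases Nat.eq_zero_or_pos j0 with h | h
    · exfalso
      rw [h, slit_zero] at hj0
      exact absurd (hy.1 i0).1 (not_lt.mpr hj0.le)
    · exact h
  have hlow : slit s (j0 - 1) < y i0 := by
    have h1 : ¬ y i0 < slit s (j0 - 1) := Nat.find_min hex (by omega)
    exact lt_of_le_of_ne (not_lt.mp h1) (Ne.symm (hy.2 (j0 - 1)))
  have hc : Continuous (fun x : Fin d → ℝ => x i0) := continuous_apply i0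
  have h1 : ∀ᶠ x in 𝓝 y, x i0 < slit s j0 := hc.continuousAt.eventually_lt continuousAt_const hj0
  have h2 : ∀ᶠ x in 𝓝 y, slit s (j0 - 1) < x i0 := continuousAt_const.eventually_lt hc.continuousAt hlow
  filter_upwards [h1, h2] with x hx1 hx2
  intro j
  by_cases hj : j0 ≤ j
  · have h3 := slit_mono hs hj
    exact ⟨fun _ => hj0.trans_le h3, fun _ => hx1.trans_le h3⟩
  · have h3 : slit s j ≤ slit s (j0 - 1) := slit_mono hs (by omega)
    exact ⟨fun h => absurd (h.trans_le h3) (not_lt.mpr hx2.le),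
      fun h => absurd (h.trans_le h3) (not_lt.mpr hlow.le)⟩

open Classical in
/-- the fooling function: one on the slabs which contain none of the points -/
noncomputable def slabFun {d n : ℕ} (i0 : Fin d) (s : ℝ) (x : Fin n → (Fin d → ℝ))
    (y : Fin d → ℝ) : ℝ := if ∃ i, same i0 s y (x i) then 0 else 1

lemma slabFun_nhds {d n : ℕ} (i0 : Fin d) (s : ℝ) (hs : 0 < s) (x : Fin n → (Fin d → ℝ))
    (y : Fin d → ℝ) (hy : y ∈ slitCube d i0 s) :
    slabFun i0 s x =ᶠ[𝓝 y] fun _ => slabFun i0 s x y := by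
  filter_upwards [same_nhds i0 s hs y hy] with z hz
  have : (∃ i, same i0 s z (x i)) ↔ ∃ i, same i0 s y (x i) := by
    refine exists_congr (fun i => ?_)
    constructor
    · intro h j; exact (hz j).symm.trans (h j)
    · intro h j; exact (hz j).trans (h j)
  unfold slabFun
  by_cases h : ∃ i, same i0 s y (x i)
  · rw [if_pos (this.mpr h), if_pos h]
  · rw [if_neg (fun h' => h (this.mp h')), if_neg h]

lemma slabFun_range {d n : ℕ} (i0 : Fin d) (s : ℝ) (x : Fin n → (Fin d → ℝ)) (y : Fin d → ℝ) :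
    0 ≤ slabFun i0 s x y ∧ slabFun i0 s x y ≤ 1 := by
  unfold slabFun
  split_ifs <;> simp

lemma slabFun_cF {d n k : ℕ} (i0 : Fin d) (s : ℝ) (hs : 0 < s) (x : Fin n → (Fin d → ℝ)) :
    cF k (slitCube d i0 s) (slabFun i0 s x) := by
  refine ⟨?_, ?_, ?_⟩
  · intro y hy
    exact (contDiffAt_const.congr_of_eventuallyEq
      (slabFun_nhds i0 s hs x y (interior_subset hy))).contDiffWithinAt
  · intro y _
    have h := slabFun_range i0 s x y
    rw [abs_le]; constructor <;> linarith [h.1, h.2]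
  · intro j _ y hy r
    have h1 := ((slabFun_nhds i0 s hs x y (interior_subset hy)).iteratedFDeriv ℝ j).eq_of_nhds
    rw [h1]
    rcases Nat.eq_zero_or_pos j with h | h
    · subst h
      rw [iteratedFDeriv_zero_apply]
      have h := slabFun_range i0 s x y
      rw [abs_le]; constructor <;> linarith [h.1, h.2]
    · rw [iteratedFDeriv_const_of_ne (by omega : j ≠ 0)]
      simp

/-- an open slab -/
def slab (d : ℕ) (i0 : Fin d) (s : ℝ) (j : ℕ) : Set (Fin d → ℝ) :=
  {x | (∀ i, 0 < x i ∧ x i < 1) ∧ slit s j < x i0 ∧ x i0 < slit s (j + 1)}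

lemma slab_sub {d : ℕ} (i0 : Fin d) (s : ℝ) (hs : 0 < s) (j : ℕ) :
    slab d i0 s j ⊆ slitCube d i0 s := by
  intro x hx
  refine ⟨hx.1, fun l h => ?_⟩
  rcases Nat.lt_or_ge j l with hl | hl
  · have := slit_mono hs (show j + 1 ≤ l by omega)
    linarith [hx.2.2]
  · have := slit_mono hs hl
    linarith [hx.2.1]

lemma slab_pi {d : ℕ} (i0 : Fin d) (s : ℝ) (hs : 0 < s) (j : ℕ) : slab d i0 s j =
    Set.pi Set.univ (fun i => Ioo (if i = i0 then slit s j else 0)
      (if i = i0 then slit s (j + 1) else 1)) := by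
  have h0 : 0 ≤ slit s j := by rw [← slit_zero s]; exact slit_mono hs (Nat.zero_le _)
  have h1 := slit_lt_one s (j + 1)
  ext x
  simp only [slab, Set.mem_ofPred_eq, Set.mem_pi, Set.mem_univ, true_implies, mem_Ioo]
  constructor
  · rintro ⟨h2, h3⟩ i
    by_cases hi : i = i0
    · subst hi; simpa using h3
    · simpa [hi] using h2 i
  · intro h
    have h3 := h i0
    simp only [if_true] at h3
    refine ⟨fun i => ?_, h3⟩
    by_cases hi : i = i0
    · subst hi; constructor <;> linarith [h3.1, h3.2]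
    · simpa [hi] using h i

lemma slab_volume {d : ℕ} (i0 : Fin d) (s : ℝ) (hs : 0 < s) (j : ℕ) :
    volume (slab d i0 s j) = ENNReal.ofReal (slit s (j + 1) - slit s j) := by
  rw [slab_pi i0 s hs, Real.volume_pi_Ioo, Finset.prod_eq_single i0]
  · simp
  · intro i _ hi; simp [hi]
  · intro h; exact absurd (Finset.mem_univ i0) h

lemma slab_disj {d : ℕ} (i0 : Fin d) (s : ℝ) (hs : 0 < s) {j l : ℕ} (h : j ≠ l) :
    Disjoint (slab d i0 s j) (slab d i0 s l) := by
  rw [Set.disjoint_left]
  intro x hx hx'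
  rcases Nat.lt_or_gt_of_ne h with hl | hl
  · have := slit_mono hs (show j + 1 ≤ l by omega)
    linarith [hx.2.2, hx'.2.1]
  · have := slit_mono hs (show l + 1 ≤ j by omega)
    linarith [hx.2.1, hx'.2.2]

lemma slabFun_integral {d n : ℕ} (i0 : Fin d) (s : ℝ) (hs : 0 < s) (x : Fin n → (Fin d → ℝ))
    (hx : ∀ i, x i ∈ slitCube d i0 s) :
    (n : ℝ) * (s * (2 * (n : ℝ) + 1) ^ (-s - 1)) ≤
      ∫ y in slitCube d i0 s, slabFun i0 s x y := by
  classical
  set D := slitCube d i0 s with hD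
  have hDo : IsOpen D := slitCube_open d i0 s hs
  -- occupied indices
  let occ : Finset ℕ := Finset.univ.biUnion (fun i : Fin n =>
    (Finset.range (2 * n)).filter (fun j => slit s j < x i i0 ∧ x i i0 < slit s (j + 1)))
  have hocc : occ.card ≤ n := by
    have h1 : occ.card ≤ ∑ i : Fin n, ((Finset.range (2 * n)).filter
        (fun j => slit s j < x i i0 ∧ x i i0 < slit s (j + 1))).card := Finset.card_biUnion_le
    refine h1.trans ?_
    calc _ ≤ ∑ _i : Fin n, 1 := by
          refine Finset.sum_le_sum (fun i _ => ?_)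
          rw [Finset.card_le_one]
          intro a ha b hb
          simp only [Finset.mem_filter] at ha hb
          by_contra hab
          rcases Nat.lt_or_gt_of_ne hab with hl | hl
          · have := slit_mono hs (show a + 1 ≤ b by omega)
            linarith [ha.2.2, hb.2.1]
          · have := slit_mono hs (show b + 1 ≤ a by omega)
            linarith [ha.2.1, hb.2.2]
      _ = n := by simp
  let free : Finset ℕ := Finset.range (2 * n) \ occ
  have hfree : n ≤ free.card := by
    have := Finset.le_card_sdiff occ (Finset.range (2 * n))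
    rw [Finset.card_range] at this
    simp only [free]
    omega
  set B := ⋃ j ∈ free, slab d i0 s j with hB
  have hslabm : ∀ j, MeasurableSet (slab d i0 s j) := by
    intro j; rw [slab_pi i0 s hs]; exact MeasurableSet.univ_pi (fun i => measurableSet_Ioo)
  have hBm : MeasurableSet B := Finset.measurableSet_biUnion free (fun j _ => hslabm j)
  have hBD : B ⊆ D := by
    intro y hy
    simp only [hB, mem_iUnion] at hy
    obtain ⟨j, _, hy⟩ := hy
    exact slab_sub i0 s hs j hy
  have hf1 : ∀ y ∈ B, slabFun i0 s x y = 1 := by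
    intro y hy
    simp only [hB, mem_iUnion] at hy
    obtain ⟨j, hj, hy⟩ := hy
    unfold slabFun
    rw [if_neg]
    rintro ⟨i, hi⟩
    simp only [free, Finset.mem_sdiff] at hj
    apply hj.2
    simp only [occ, Finset.mem_biUnion, Finset.mem_univ, true_and, Finset.mem_filter]
    refine ⟨i, hj.1, ?_, ?_⟩
    · have h1 : ¬ x i i0 < slit s j := by
        rw [← hi j]; exact not_lt.mpr hy.2.1.le
      exact lt_of_le_of_ne (not_lt.mp h1) (Ne.symm ((hx i).2 j))
    · rw [← hi (j + 1)]; exact hy.2.2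
  have hDfin : volume D < ⊤ := by rw [hD, slitCube_volume]; exact ENNReal.one_lt_top
  have hint : IntegrableOn (slabFun i0 s x) D := by
    refine IntegrableOn.of_bound hDfin ?_ 1 ?_
    · have h1 := (slabFun_cF (k := 0) i0 s hs x).1.continuousOn
      rw [hDo.interior_eq] at h1
      exact h1.aestronglyMeasurable hDo.measurableSet
    · refine Eventually.of_forall (fun y => ?_)
      have h := slabFun_range i0 s x y
      rw [Real.norm_eq_abs, abs_le]; constructor <;> linarith [h.1, h.2]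
  have h1 : ∫ y in B, slabFun i0 s x y ≤ ∫ y in D, slabFun i0 s x y := by
    apply setIntegral_mono_set hint
    · exact Eventually.of_forall (fun y => (slabFun_range i0 s x y).1)
    · exact hBD.eventuallyLE
  refine le_trans ?_ h1
  rw [setIntegral_congr_fun hBm (g := fun _ => (1 : ℝ)) (fun y hy => hf1 y hy), setIntegral_const,
    smul_eq_mul, mul_one, Measure.real, hB,
    measure_biUnion_finset (fun j _ l _ h => slab_disj i0 s hs h) (fun j _ => hslabm j)]
  simp only [slab_volume i0 s hs]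
  have hgap : ∀ j, 0 ≤ slit s (j + 1) - slit s j := fun j => by
    have := slit_mono hs (Nat.le_succ j)
    simp only [Nat.succ_eq_add_one] at this
    linarith
  rw [← ENNReal.ofReal_sum_of_nonneg (fun j _ => hgap j),
    ENNReal.toReal_ofReal (Finset.sum_nonneg (fun j _ => hgap j))]
  have h2 : ∀ j ∈ free, s * (2 * (n : ℝ) + 1) ^ (-s - 1) ≤ slit s (j + 1) - slit s j := by
    intro j hj
    refine le_trans ?_ (slit_gap hs j)
    apply mul_le_mul_of_nonneg_left _ hs.le
    have hj2 : j < 2 * n := by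
      simp only [free, Finset.mem_sdiff, Finset.mem_range] at hj
      exact hj.1
    have h3 : (j : ℝ) + 2 ≤ 2 * (n : ℝ) + 1 := by
      have : j + 1 ≤ 2 * n := hj2
      have h4 : ((j + 1 : ℕ) : ℝ) ≤ ((2 * n : ℕ) : ℝ) := by exact_mod_cast this
      push_cast at h4
      linarith
    exact Real.rpow_le_rpow_of_nonpos (by positivity) h3 (by linarith)
  calc (n : ℝ) * (s * (2 * (n : ℝ) + 1) ^ (-s - 1))
      ≤ (free.card : ℝ) * (s * (2 * (n : ℝ) + 1) ^ (-s - 1)) := by
        apply mul_le_mul_of_nonneg_right _ (by positivity)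
        exact_mod_cast hfree
    _ = ∑ _j ∈ free, s * (2 * (n : ℝ) + 1) ^ (-s - 1) := by
        rw [Finset.sum_const, nsmul_eq_mul]
    _ ≤ ∑ j ∈ free, (slit s (j + 1) - slit s j) := Finset.sum_le_sum h2

lemma slabFun_zero {d n : ℕ} (i0 : Fin d) (s : ℝ) (x : Fin n → (Fin d → ℝ)) (i : Fin n) :
    slabFun i0 s x (x i) = 0 := by
  unfold slabFun
  rw [if_pos ⟨i, fun j => Iff.rfl⟩]

end Pool.Agent.Helper43.Quad
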